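import Pool.Agent.H56.SMC.FAC

/-!
# Tuk: Tucker's theorem for skew symmetric matrices over `ℚ` (row of MP_504089_T6)

STATEMENT.  For a skew symmetric rational matrix `M` there is `z ≥ 0` with `M z ≥ 0` and
`z + M z > 0`.

PROOF.  For every index `i` there is `z ≥ 0` with `M z ≥ 0` and `z_i + (M z)_i > 0`; the sum of
these `z` over all `i` has the required property (all entries of `z`, `M z` are `≥ 0`).
Fix `i`.  If there is `z ≥ 0` with `M z ≥ 0` and `z_i > 0` we are done.  Otherwise the functional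
`z ↦ -z_i` is `≥ 0` on `{z : z ≥ 0, M z ≥ 0}`, so by `fac_farkas` (Pool/Agent/H56/SMC/FAC.lean, with
`ι = I ⊕ I`, `V = I → ℚ`, the functionals `z ↦ z_j` and `z ↦ (M z)_j`) there are `p, q ≥ 0` with
`-z_i = ∑_j p_j z_j + ∑_j q_j (M z)_j` for all `z`; take `z = Pi.single j 1`:
`-[i = j] = p_j + (q ᵥ* M)_j = p_j - (M q)_j` by skewness.  So `(M q)_j = p_j + [i = j] ≥ 0` and
`(M q)_i ≥ 1`: `z = q` works.
-/

set_option autoImplicit false

namespace Pool.Agent.H46.T6

open Finset

theorem Tuk_one {I : Type} [Fintype I] [DecidableEq I] (M : Matrix I I ℚ)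
    (hM : M.transpose = -M) (i : I) :
    ∃ z : I → ℚ, (∀ j, 0 ≤ z j) ∧ (∀ j, 0 ≤ M.mulVec z j) ∧ 0 < z i + M.mulVec z i := by
  by_cases hc : ∃ z : I → ℚ, (∀ j, 0 ≤ z j) ∧ (∀ j, 0 ≤ M.mulVec z j) ∧ 0 < z i
  · obtain ⟨z, h1, h2, h3⟩ := hc
    exact ⟨z, h1, h2, by linarith [h2 i]⟩
  · push Not at hc
    obtain ⟨b, hb1, hb2⟩ : ∃ b : I ⊕ I → (I → ℚ) →ₗ[ℚ] ℚ,
        (∀ j w, b (Sum.inl j) w = w j) ∧ (∀ j w, b (Sum.inr j) w = M.mulVec w j) :=
      ⟨Sum.elim (fun j => LinearMap.proj j) (fun j => (LinearMap.proj j).comp M.mulVecLin),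
        fun _ _ => rfl, fun _ _ => rfl⟩
    obtain ⟨c, hc0, hcv⟩ := Pool.Agent.H56.SMC.fac_farkas (univ : Finset (I ⊕ I)) b
      (-LinearMap.proj i : (I → ℚ) →ₗ[ℚ] ℚ) (by
        intro w hw
        have h1 : ∀ j, 0 ≤ w j := fun j => by
          have := hw (Sum.inl j) (mem_univ _)
          rwa [hb1] at this
        have h2 : ∀ j, 0 ≤ M.mulVec w j := fun j => by
          have := hw (Sum.inr j) (mem_univ _)
          rwa [hb2] at this
        have h3 := hc w h1 h2
        show 0 ≤ -(w i)
        linarith)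
    have key : ∀ j, M.mulVec (fun l => c (Sum.inr l)) j = c (Sum.inl j) + if j = i then 1 else 0 := by
      intro j
      have h1 := DFunLike.congr_fun hcv (Pi.single j (1 : ℚ))
      rw [LinearMap.sum_apply, Fintype.sum_sum_type] at h1
      simp only [LinearMap.smul_apply, smul_eq_mul, hb1, hb2, LinearMap.neg_apply,
        LinearMap.proj_apply, Matrix.mulVec_single, MulOpposite.op_one, one_smul,
        Matrix.col_apply] at h1
      have h2 : ∑ x, c (Sum.inl x) * (Pi.single j (1 : ℚ) : I → ℚ) x = c (Sum.inl j) := by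
        rw [Finset.sum_eq_single j]
        · simp
        · intro l _ hl
          rw [Pi.single_eq_of_ne hl, mul_zero]
        · intro h
          exact absurd (mem_univ j) h
      have h3 : ∀ l, M l j = -M j l := by
        intro l
        have := congrFun (congrFun hM j) l
        rw [Matrix.transpose_apply, Matrix.neg_apply] at this
        exact this
      have h4 : ∑ x, c (Sum.inr x) * M x j = -M.mulVec (fun l => c (Sum.inr l)) j := by
        unfold Matrix.mulVec dotProduct
        rw [← Finset.sum_neg_distrib]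
        refine Finset.sum_congr rfl fun l _ => ?_
        rw [h3 l]
        ring
      rw [h2, h4] at h1
      have h5 : (Pi.single j (1 : ℚ) : I → ℚ) i = if j = i then 1 else 0 := by
        rw [Pi.single_apply]
        by_cases h : i = j
        · rw [if_pos h, if_pos h.symm]
        · rw [if_neg h, if_neg (Ne.symm h)]
      rw [h5] at h1
      linarith
    refine ⟨fun l => c (Sum.inr l), fun j => hc0 _, fun j => ?_, ?_⟩
    · rw [key j]
      have := hc0 (Sum.inl j)
      split_ifs <;> linarith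
    · rw [key i, if_pos rfl]
      have h1 := hc0 (Sum.inl i)
      have h2 := hc0 (Sum.inr i)
      show 0 < c (Sum.inr i) + (c (Sum.inl i) + 1)
      linarith

/-- TUK -/
theorem tucker {I : Type} [Fintype I] [DecidableEq I] (M : Matrix I I ℚ)
    (hM : M.transpose = -M) :
    ∃ z : I → ℚ, (∀ i, 0 ≤ z i) ∧ (∀ i, 0 ≤ M.mulVec z i) ∧ ∀ i, 0 < z i + M.mulVec z i := by
  choose z h1 h2 h3 using Tuk_one M hM
  have hs : ∀ j, M.mulVec (∑ i, z i) j = ∑ i, M.mulVec (z i) j := by
    intro j
    have : M.mulVec (∑ i, z i) = ∑ i, M.mulVec (z i) := by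
      have := map_sum M.mulVecLin z Finset.univ
      exact this
    rw [this, Finset.sum_apply]
  refine ⟨∑ i, z i, fun j => ?_, fun j => ?_, fun j => ?_⟩
  · rw [Finset.sum_apply]
    exact Finset.sum_nonneg fun i _ => h1 i j
  · rw [hs]
    exact Finset.sum_nonneg fun i _ => h2 i j
  · rw [hs, Finset.sum_apply, ← Finset.sum_add_distrib]
    refine lt_of_lt_of_le (h3 j) (Finset.single_le_sum (f := fun i => z i j + M.mulVec (z i) j)
      (fun i _ => add_nonneg (h1 i j) (h2 i j)) (mem_univ j))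

end Pool.Agent.H46.T6
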