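import Pool.Agent.H46.T6.Defs

/-!
# Nst: the Nullstellensatz on the torus, with finite supports (row of MP_504089_T6)

STATEMENT.  If the Laurent polynomials `∑_{i ∈ Q k} c_{k,i} x^{a_i}`, `k ∈ K` (finite), have no
common zero in the torus then `1 = ∑_k h_k z_k` with `z_k` supported in a box: the identity is
written for coefficients: for every `w ∈ ℤ^n` the coefficient of `x^w` of `∑_k h_k z_k` is
`∑_k ∑_{i ∈ Q k} c_{k,i} z_k(w - a_i)`.

PROOF.  Work in `R = AddMonoidAlgebra ℂ (Fin n → ℤ)`, a finitely generated `ℂ`-algebra (generated by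
`x^{±e_j}`; `AddMonoidAlgebra.finiteType_iff_fg` / `AddMonoidAlgebra.finiteType_of_fg` with
`AddMonoid.FG (Fin n → ℤ)`), hence a Jacobson ring (`isJacobsonRing_of_finiteType`).  Let `I` be the
ideal generated by `h_k = ∑_{i ∈ Q k} single (a i) (c k i)`.  If `I ≠ ⊤` take a maximal ideal
`m ≥ I`; `R ⧸ m` is a field which is finite over `ℂ` (`finite_of_finite_type_of_isJacobsonRing`), so
equal to `ℂ` (`IsAlgClosed.algebraMap_bijective_of_isIntegral`): an algebra homomorphism
`ψ : R →ₐ[ℂ] ℂ` with `ψ(h_k) = 0`.  See the proof of `flnull` in Pool/Agent/H56/SMC/FLNULL.lean,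
where exactly this is done.  Put `t_j = ψ(single (e_j) 1)`, nonzero because `single (e_j) 1` is
invertible; `ψ (single v 1) = mon t v` (multiplicativity), so `val a (Q k) (c k) t = ψ(h_k) = 0` for
all `k`, contradiction.  So `1 ∈ I`: `1 = ∑_k h_k z_k` (`Ideal.mem_span_range_iff_exists_fun`), and
`N` = a bound for the absolute values of the coordinates of the supports of the `z_k`; compare
coefficients at `w`.
-/

set_option autoImplicit false

namespace Pool.Agent.H46.T6

open Finset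

/-- Integer powers. -/
theorem Nst_zpow (f : ℤ → ℂ) (h0 : f 0 = 1) (hadd : ∀ a b, f (a + b) = f a * f b) (hne : f 1 ≠ 0)
    (k : ℤ) : f k = f 1 ^ k := by
  induction k using Int.induction_on with
  | zero => rw [h0, zpow_zero]
  | succ k ih => rw [hadd, ih, zpow_add_one₀ hne]
  | pred k ih =>
    have h1 : f (-(k : ℤ)) = f (-(k : ℤ) - 1) * f 1 := by
      rw [← hadd]
      congr 1
      ring
    rw [zpow_sub_one₀ hne, ← ih, h1, mul_assoc, mul_inv_cancel₀ hne, mul_one]

theorem Nst_fg (n : ℕ) : AddMonoid.FG (Fin n → ℤ) := by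
  have h : AddGroup.FG (Fin n → ℤ) := Module.Finite.iff_addGroup_fg.mp inferInstance
  exact AddGroup.fg_iff_addMonoid_fg.mp h

/-- A maximal ideal containing the polynomials gives a common zero on the torus. -/
theorem Nst_point {n : ℕ} {ι K : Type} (a : ι → Fin n → ℤ) (Q : K → Finset ι)
    (c : K → ι → ℂ) (I : Ideal (AddMonoidAlgebra ℂ (Fin n → ℤ))) (hI : I ≠ ⊤)
    (hk : ∀ k, ∑ i ∈ Q k, AddMonoidAlgebra.single (a i) (c k i) ∈ I) :
    ∃ t : Fin n → ℂ, (∀ i, t i ≠ 0) ∧ ∀ k, val a (Q k) (c k) t = 0 := by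
  classical
  have := Nst_fg n
  obtain ⟨m, hm, hIm⟩ := Ideal.exists_le_maximal I hI
  let := Ideal.Quotient.field m
  have : Algebra.FiniteType ℂ (AddMonoidAlgebra ℂ (Fin n → ℤ) ⧸ m) :=
    Algebra.FiniteType.of_surjective (Ideal.Quotient.mkₐ ℂ m) (Ideal.Quotient.mkₐ_surjective ℂ m)
  have : Module.Finite ℂ (AddMonoidAlgebra ℂ (Fin n → ℤ) ⧸ m) :=
    finite_of_finite_type_of_isJacobsonRing ℂ _
  have hbij : Function.Bijective (algebraMap ℂ (AddMonoidAlgebra ℂ (Fin n → ℤ) ⧸ m)) :=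
    IsAlgClosed.algebraMap_bijective_of_isIntegral
  let eq : ℂ ≃ₐ[ℂ] (AddMonoidAlgebra ℂ (Fin n → ℤ) ⧸ m) :=
    AlgEquiv.ofBijective (Algebra.ofId ℂ _) hbij
  let ψ : AddMonoidAlgebra ℂ (Fin n → ℤ) →ₐ[ℂ] ℂ :=
    (eq.symm : (AddMonoidAlgebra ℂ (Fin n → ℤ) ⧸ m) →ₐ[ℂ] ℂ).comp (Ideal.Quotient.mkₐ ℂ m)
  have hψ : ∀ x ∈ I, ψ x = 0 := by
    intro x hx
    show eq.symm (Ideal.Quotient.mk m x) = 0
    rw [map_eq_zero_iff _ eq.symm.injective, Ideal.Quotient.eq_zero_iff_mem]
    exact hIm hx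
  obtain ⟨φ, hφ⟩ : ∃ φ : (Fin n → ℤ) → ℂ, φ = fun v => ψ (AddMonoidAlgebra.single v 1) := ⟨_, rfl⟩
  have h0 : φ 0 = 1 := by
    rw [hφ]
    show ψ (AddMonoidAlgebra.single 0 1) = 1
    rw [← AddMonoidAlgebra.one_def, map_one]
  have hadd : ∀ v w, φ (v + w) = φ v * φ w := by
    intro v w
    rw [hφ]
    show ψ (AddMonoidAlgebra.single (v + w) 1) =
      ψ (AddMonoidAlgebra.single v 1) * ψ (AddMonoidAlgebra.single w 1)
    rw [← map_mul, AddMonoidAlgebra.single_mul_single, mul_one]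
  have hne : ∀ v, φ v ≠ 0 := by
    intro v hv
    have h1 := hadd v (-v)
    rw [add_neg_cancel, h0, hv, zero_mul] at h1
    exact one_ne_zero h1
  have hsum : ∀ (F : Finset (Fin n)) (g : Fin n → Fin n → ℤ),
      φ (∑ j ∈ F, g j) = ∏ j ∈ F, φ (g j) := by
    intro F g
    induction F using Finset.induction_on with
    | empty => simpa using h0
    | insert j F hj ih => rw [Finset.sum_insert hj, Finset.prod_insert hj, hadd, ih]
  have hmon : ∀ v, φ v = mon (fun j => φ (Pi.single j 1)) v := by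
    intro v
    have h1 : v = ∑ j, v j • (Pi.single j (1 : ℤ) : Fin n → ℤ) := by
      funext i
      rw [Finset.sum_apply, Finset.sum_eq_single i]
      · simp
      · intro j _ hj
        simp [Pi.single_eq_of_ne hj.symm]
      · intro h
        exact absurd (Finset.mem_univ _) h
    conv_lhs => rw [h1, hsum]
    unfold mon
    refine Finset.prod_congr rfl fun j _ => ?_
    have h2 := Nst_zpow (fun k : ℤ => φ (k • (Pi.single j (1 : ℤ) : Fin n → ℤ)))
      (by simpa using h0) (fun x y => by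
        show φ ((x + y) • _) = φ (x • _) * φ (y • _)
        rw [add_smul, hadd]) (hne _) (v j)
    simpa using h2
  refine ⟨fun j => φ (Pi.single j 1), fun j => hne _, fun k => ?_⟩
  have h3 := hψ _ (hk k)
  rw [map_sum] at h3
  unfold val
  rw [← h3]
  refine Finset.sum_congr rfl fun i _ => ?_
  rw [← hmon, hφ]
  show c k i * ψ (AddMonoidAlgebra.single (a i) 1) = ψ (AddMonoidAlgebra.single (a i) (c k i))
  rw [← smul_eq_mul, ← map_smul, AddMonoidAlgebra.smul_single, smul_eq_mul, mul_one]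

/-- NUL -/
theorem nul {n : ℕ} {ι K : Type} [Fintype K] (a : ι → Fin n → ℤ) (Q : K → Finset ι)
    (c : K → ι → ℂ)
    (h : ∀ t : Fin n → ℂ, (∀ i, t i ≠ 0) → ∃ k, val a (Q k) (c k) t ≠ 0) :
    ∃ (N : ℕ) (z : K → (Fin n → ℤ) → ℂ),
      (∀ k v, z k v ≠ 0 → v ∈ Fintype.piFinset (fun _ : Fin n => Finset.Icc (-(N : ℤ)) N)) ∧
      ∀ w : Fin n → ℤ, ∑ k, ∑ i ∈ Q k, c k i * z k (w - a i) = if w = 0 then 1 else 0 := by
  classical
  obtain ⟨hh, hhd⟩ : ∃ hh : K → AddMonoidAlgebra ℂ (Fin n → ℤ),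
    hh = fun k => ∑ i ∈ Q k, AddMonoidAlgebra.single (a i) (c k i) := ⟨_, rfl⟩
  by_cases hI : Ideal.span (Set.range hh) = ⊤
  · have h1 : (1 : AddMonoidAlgebra ℂ (Fin n → ℤ)) ∈ Ideal.span (Set.range hh) := by
      rw [hI]
      exact Submodule.mem_top
    rw [Ideal.mem_span_range_iff_exists_fun] at h1
    obtain ⟨y, hy⟩ := h1
    obtain ⟨N, hN⟩ : ∃ N : ℕ, ∀ k, ∀ v ∈ (y k).coeff.support, ∀ j, (v j).natAbs ≤ N := by
      refine ⟨(Finset.univ : Finset K).sup fun k => (y k).coeff.support.sup fun v =>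
        (Finset.univ : Finset (Fin n)).sup fun j => (v j).natAbs, ?_⟩
      intro k v hv j
      refine le_trans ?_ (Finset.le_sup (f := fun k => (y k).coeff.support.sup fun v =>
        (Finset.univ : Finset (Fin n)).sup fun j => (v j).natAbs) (Finset.mem_univ k))
      refine le_trans ?_ (Finset.le_sup (f := fun v : Fin n → ℤ =>
        (Finset.univ : Finset (Fin n)).sup fun j => (v j).natAbs) hv)
      exact Finset.le_sup (f := fun j => (v j).natAbs) (Finset.mem_univ j)
    refine ⟨N, fun k v => (y k).coeff v, ?_, ?_⟩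
    · intro k v hv
      rw [Fintype.mem_piFinset]
      intro j
      have h2 := hN k v (Finsupp.mem_support_iff.mpr hv) j
      rw [Finset.mem_Icc]
      omega
    · intro w
      have h2 := congrArg (fun x : AddMonoidAlgebra ℂ (Fin n → ℤ) => x.coeff w) hy
      have h3 : (1 : AddMonoidAlgebra ℂ (Fin n → ℤ)).coeff w = if w = 0 then 1 else 0 := by
        rw [AddMonoidAlgebra.one_def]
        simp [Finsupp.single_apply, eq_comm]
      rw [h3] at h2
      rw [← h2, AddMonoidAlgebra.coeff_sum, Finsupp.finsetSum_apply]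
      refine Finset.sum_congr rfl fun k _ => ?_
      rw [hhd]
      show _ = (y k * ∑ i ∈ Q k, AddMonoidAlgebra.single (a i) (c k i)).coeff w
      rw [mul_comm, Finset.sum_mul, AddMonoidAlgebra.coeff_sum, Finsupp.finsetSum_apply]
      refine Finset.sum_congr rfl fun i _ => ?_
      rw [AddMonoidAlgebra.coeff_single_mul_apply]
      congr 2
      ring
  · obtain ⟨t, ht, hv⟩ := Nst_point a Q c _ hI (fun k => by
      refine Ideal.subset_span ⟨k, ?_⟩
      rw [hhd])
    obtain ⟨k, hk⟩ := h t ht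
    exact absurd (hv k) hk

/-- NULC (the converse).
PROOF.  Multiply by `mon t w` and sum over all `w` in a finite set containing all `v + a_i`, `v` in
the box `B`, `i ∈ Q k`: `1 = ∑_w mon t w ∑_k ∑_i c_{k,i} z_k(w - a_i)
= ∑_k (∑_i c_{k,i} mon t (a_i)) (∑_{v ∈ B} z_k(v) mon t v) = 0`, if `val a (Q k) (c k) t = 0` for all
`k`.  (`mon_add`; for fixed `k, i` substitute `w = v + a_i`, `z_k` vanishes outside `B`.) -/
theorem nul_conv {n : ℕ} {ι K : Type} [Fintype K] (a : ι → Fin n → ℤ) (Q : K → Finset ι)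
    (c : K → ι → ℂ) (B : Finset (Fin n → ℤ)) (z : K → (Fin n → ℤ) → ℂ)
    (hz : ∀ k v, z k v ≠ 0 → v ∈ B)
    (hw : ∀ w : Fin n → ℤ, ∑ k, ∑ i ∈ Q k, c k i * z k (w - a i) = if w = 0 then 1 else 0)
    (t : Fin n → ℂ) (ht : ∀ i, t i ≠ 0) : ∃ k, val a (Q k) (c k) t ≠ 0 := by
  classical
  by_contra hcon
  push Not at hcon
  obtain ⟨W, hW⟩ : ∃ W : Finset (Fin n → ℤ), W = insert 0 ((Finset.univ : Finset K).biUnion
    fun k => (Q k).biUnion fun i => B.image fun v => v + a i) := ⟨_, rfl⟩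
  have h0 : (0 : Fin n → ℤ) ∈ W := by
    rw [hW]
    exact Finset.mem_insert_self _ _
  have hsub : ∀ k, ∀ i ∈ Q k, ∀ v ∈ B, v + a i ∈ W := by
    intro k i hi v hv
    rw [hW]
    refine Finset.mem_insert_of_mem (Finset.mem_biUnion.mpr ⟨k, Finset.mem_univ k, ?_⟩)
    exact Finset.mem_biUnion.mpr ⟨i, hi, Finset.mem_image_of_mem _ hv⟩
  have e1 : ∑ w ∈ W, mon t w * (∑ k, ∑ i ∈ Q k, c k i * z k (w - a i)) = 1 := by
    rw [Finset.sum_eq_single_of_mem 0 h0]
    · rw [hw 0, if_pos rfl, mon_zero, mul_one]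
    · intro w _ hne
      rw [hw w, if_neg hne, mul_zero]
  have e2 : ∑ w ∈ W, mon t w * (∑ k, ∑ i ∈ Q k, c k i * z k (w - a i)) =
      ∑ k, val a (Q k) (c k) t * ∑ v ∈ B, mon t v * z k v := by
    simp only [Finset.mul_sum]
    rw [Finset.sum_comm]
    refine Finset.sum_congr rfl fun k _ => ?_
    rw [Finset.sum_comm]
    unfold val
    simp only [Finset.sum_mul]
    rw [Finset.sum_comm (s := B)]
    refine Finset.sum_congr rfl fun i hi => ?_
    have e3 : ∑ w ∈ W, mon t w * (c k i * z k (w - a i)) =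
        ∑ w ∈ B.image (fun v => v + a i), mon t w * (c k i * z k (w - a i)) := by
      symm
      refine Finset.sum_subset ?_ ?_
      · intro w hw'
        obtain ⟨v, hv, rfl⟩ := Finset.mem_image.mp hw'
        exact hsub k i hi v hv
      · intro w _ hw'
        have h4 : z k (w - a i) = 0 := by
          by_contra h5
          exact hw' (Finset.mem_image.mpr ⟨w - a i, hz k _ h5, sub_add_cancel _ _⟩)
        rw [h4, mul_zero, mul_zero]
    rw [e3, Finset.sum_image (fun x _ y _ hxy => add_right_cancel hxy)]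
    refine Finset.sum_congr rfl fun v _ => ?_
    rw [mon_add ht, add_sub_cancel_right]
    ring
  rw [e1] at e2
  have e4 : ∑ k, val a (Q k) (c k) t * ∑ v ∈ B, mon t v * z k v = 0 :=
    Finset.sum_eq_zero fun k _ => by rw [hcon k, zero_mul]
  rw [e4] at e2
  exact one_ne_zero e2

end Pool.Agent.H46.T6
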