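import Pool.Agent.H46.T6.Lin
import Pool.Agent.H46.T6.Nst

/-!
# Bad: the parameters without zeros on a line of systems (row of MP_504089_T6)

STATEMENT.  The set `Bad` of all `τ` such that the system with coefficients
`(1-τ) c0 + τ c1` has no zero in the torus is countable or has finite complement.

PROOF.  For `N : ℕ` let `B_N = Fintype.piFinset (fun _ => Icc (-N) N)` and let `S_N` be the set of
`τ` such that there are `z k : ℤ^n → ℂ` vanishing outside `B_N` with
`∑_k ∑_{i ∈ Q k} c^τ_{k,i} z_k(w - a_i) = [w = 0]` for all `w`.  By `nul` `Bad ⊆ ⋃_N S_N`, by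
`nul_conv` every `S_N ⊆ Bad`.
`S_N` is the solvability set of a linear system as in `lin_path`: unknowns `J = K × B_N` (subtype),
equations `I` = the finite set of all `w` which are `0` or of the form `v + a_i`, `v ∈ B_N`,
`i ∈ Q k` for some `k` (for the other `w` all terms vanish and `w ≠ 0`), matrix entry at
`(w, (k, v))`: `∑_{i ∈ Q k with v + a_i = w} c^τ_{k,i}`, which is `A + τ B` with
`A = ∑ c0`, `B = ∑ (c1 - c0)`; `e w = [w = 0]`.
So each `S_N` is finite or has finite complement (`lin_path`).  If all `S_N` are finite then `Bad` is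
countable (`Set.countable_iUnion`, `Set.Finite.countable`, `Set.Countable.mono`).  If some `S_N` has
finite complement then so has `Bad ⊇ S_N`.
-/

set_option autoImplicit false

namespace Pool.Agent.H46.T6

open Finset

/-- the identity is solvable with supports in the finite set `B` -/
private def Bad_S {n : ℕ} {ι K : Type} [Fintype K] (a : ι → Fin n → ℤ) (Q : K → Finset ι)
    (c0 c1 : K → ι → ℂ) (B : Finset (Fin n → ℤ)) : Set ℂ :=
  {τ | ∃ z : K → (Fin n → ℤ) → ℂ, (∀ k v, z k v ≠ 0 → v ∈ B) ∧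
    ∀ w : Fin n → ℤ, ∑ k, ∑ i ∈ Q k, path (c0 k) (c1 k) τ i * z k (w - a i) =
      if w = 0 then 1 else 0}

open Classical in
private theorem Bad_id {n : ℕ} {ι K : Type} [Fintype K] (a : ι → Fin n → ℤ) (Q : K → Finset ι)
    (c : K → ι → ℂ) (B : Finset (Fin n → ℤ)) (z : K → (Fin n → ℤ) → ℂ)
    (hz : ∀ k v, z k v ≠ 0 → v ∈ B) (w : Fin n → ℤ) :
    ∑ kv : K × ↥B, (∑ i ∈ Q kv.1, if (kv.2 : Fin n → ℤ) + a i = w then c kv.1 i else 0) *
      z kv.1 kv.2 = ∑ k, ∑ i ∈ Q k, c k i * z k (w - a i) := by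
  rw [Fintype.sum_prod_type]
  refine Finset.sum_congr rfl fun k _ => ?_
  have h1 : ∑ v : ↥B, (∑ i ∈ Q k, if (v : Fin n → ℤ) + a i = w then c k i else 0) * z k v =
      ∑ v ∈ B, (∑ i ∈ Q k, if v + a i = w then c k i else 0) * z k v :=
    Finset.sum_coe_sort B (fun v => (∑ i ∈ Q k, if v + a i = w then c k i else 0) * z k v)
  rw [h1]
  simp only [Finset.sum_mul]
  rw [Finset.sum_comm]
  refine Finset.sum_congr rfl fun i _ => ?_
  by_cases hw : w - a i ∈ B
  · rw [Finset.sum_eq_single (w - a i)]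
    · rw [if_pos (sub_add_cancel w (a i))]
    · intro v _ hv
      rw [if_neg (fun h => hv (by rw [← h, add_sub_cancel_right])), zero_mul]
    · intro h
      exact absurd hw h
  · have h0 : z k (w - a i) = 0 := by
      by_contra hne
      exact hw (hz k _ hne)
    rw [h0, mul_zero]
    apply Finset.sum_eq_zero
    intro v hv
    rw [if_neg (fun h => hw (by rw [← h, add_sub_cancel_right]; exact hv)), zero_mul]

private theorem Bad_fin {n : ℕ} {ι K : Type} [Fintype K] (a : ι → Fin n → ℤ) (Q : K → Finset ι)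
    (c0 c1 : K → ι → ℂ) (B : Finset (Fin n → ℤ)) :
    (Bad_S a Q c0 c1 B).Finite ∨ (Bad_S a Q c0 c1 B)ᶜ.Finite := by
  classical
  obtain ⟨W, hW⟩ : ∃ W : Finset (Fin n → ℤ), W = insert 0 (univ.biUnion fun k : K =>
    (Q k).biUnion fun i => B.image fun v => v + a i) := ⟨_, rfl⟩
  have hW0 : (0 : Fin n → ℤ) ∈ W := by rw [hW]; exact mem_insert_self _ _
  have hWm : ∀ k : K, ∀ i ∈ Q k, ∀ v ∈ B, v + a i ∈ W := by
    intro k i hi v hv
    rw [hW]
    exact mem_insert_of_mem (mem_biUnion.2 ⟨k, mem_univ k, mem_biUnion.2 ⟨i, hi,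
      mem_image_of_mem _ hv⟩⟩)
  obtain ⟨A, hA⟩ : ∃ A : Matrix ↥W (K × ↥B) ℂ, A = Matrix.of fun (w : ↥W) (kv : K × ↥B) =>
    ∑ i ∈ Q kv.1, if (kv.2 : Fin n → ℤ) + a i = (w : Fin n → ℤ) then c0 kv.1 i else 0 := ⟨_, rfl⟩
  obtain ⟨A', hA'⟩ : ∃ A : Matrix ↥W (K × ↥B) ℂ, A = Matrix.of fun (w : ↥W) (kv : K × ↥B) =>
    ∑ i ∈ Q kv.1, if (kv.2 : Fin n → ℤ) + a i = (w : Fin n → ℤ) then c1 kv.1 i - c0 kv.1 i else 0 := ⟨_, rfl⟩
  have hent : ∀ (τ : ℂ) (w : ↥W) (kv : K × ↥B), (A + τ • A') w kv =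
      ∑ i ∈ Q kv.1, if (kv.2 : Fin n → ℤ) + a i = w then path (c0 kv.1) (c1 kv.1) τ i else 0 := by
    intro τ w kv
    rw [Matrix.add_apply, Matrix.smul_apply, hA, hA', Matrix.of_apply, Matrix.of_apply,
      smul_eq_mul, Finset.mul_sum, ← Finset.sum_add_distrib]
    refine Finset.sum_congr rfl fun i _ => ?_
    by_cases h : (kv.2 : Fin n → ℤ) + a i = w
    · rw [if_pos h, if_pos h, if_pos h]
      unfold path
      ring
    · rw [if_neg h, if_neg h, if_neg h, mul_zero, add_zero]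
  obtain ⟨e, he⟩ : ∃ e : ↥W → ℂ, e = fun (w : ↥W) => if (w : Fin n → ℤ) = 0 then (1 : ℂ) else 0 := ⟨_, rfl⟩
  have key : ∀ τ : ℂ, τ ∈ Bad_S a Q c0 c1 B ↔ ∃ x : K × ↥B → ℂ, (A + τ • A').mulVec x = e := by
    intro τ
    constructor
    · rintro ⟨z, hz, hw⟩
      refine ⟨fun kv => z kv.1 kv.2, ?_⟩
      funext w
      have h1 : (A + τ • A').mulVec (fun kv => z kv.1 kv.2) w =
          ∑ kv : K × ↥B, (A + τ • A') w kv * z kv.1 kv.2 := rfl
      rw [h1, Finset.sum_congr rfl (fun kv _ => by rw [hent τ w kv]),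
        Bad_id a Q (fun k => path (c0 k) (c1 k) τ) B z hz w, hw, he]
    · rintro ⟨x, hx⟩
      obtain ⟨z, hzd⟩ : ∃ z : K → (Fin n → ℤ) → ℂ,
        z = fun k v => if h : v ∈ B then x (k, ⟨v, h⟩) else 0 := ⟨_, rfl⟩
      have hz : ∀ k v, z k v ≠ 0 → v ∈ B := by
        intro k v h
        by_contra hv
        apply h
        rw [hzd]
        exact dif_neg hv
      have hzx : ∀ kv : K × ↥B, z kv.1 kv.2 = x kv := by
        intro kv
        rw [hzd]
        exact dif_pos kv.2.2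
      refine ⟨z, hz, fun w => ?_⟩
      by_cases hwW : w ∈ W
      · have h1 := congrFun hx ⟨w, hwW⟩
        have h2 : (A + τ • A').mulVec x ⟨w, hwW⟩ =
          ∑ kv : K × ↥B, (A + τ • A') ⟨w, hwW⟩ kv * x kv := rfl
        rw [h2, Finset.sum_congr rfl (fun kv _ => by rw [hent τ ⟨w, hwW⟩ kv, ← hzx kv]),
          Bad_id a Q (fun k => path (c0 k) (c1 k) τ) B z hz w, he] at h1
        exact h1
      · rw [if_neg (fun h => hwW (by rw [h]; exact hW0))]
        refine Finset.sum_eq_zero fun k _ => Finset.sum_eq_zero fun i hi => ?_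
        have h0 : z k (w - a i) = 0 := by
          by_contra hne
          have h1 := hWm k i hi _ (hz k _ hne)
          rw [sub_add_cancel] at h1
          exact hwW h1
        rw [h0, mul_zero]
  rcases lin_path A A' e with h | h
  · left
    refine h.subset fun τ hτ => (key τ).1 hτ
  · right
    refine h.subset fun τ hτ => ?_
    intro hx
    exact hτ ((key τ).2 hx)

/-- BAD -/
theorem bad {n : ℕ} {ι K : Type} [Fintype K] (a : ι → Fin n → ℤ) (Q : K → Finset ι)
    (c0 c1 : K → ι → ℂ) :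
    {τ : ℂ | ∀ t : Fin n → ℂ, (∀ i, t i ≠ 0) →
      ∃ k, val a (Q k) (path (c0 k) (c1 k) τ) t ≠ 0}.Countable ∨
    {τ : ℂ | ∀ t : Fin n → ℂ, (∀ i, t i ≠ 0) →
      ∃ k, val a (Q k) (path (c0 k) (c1 k) τ) t ≠ 0}ᶜ.Finite := by
  by_cases hall : ∀ N : ℕ, (Bad_S a Q c0 c1
      (Fintype.piFinset (fun _ : Fin n => Finset.Icc (-(N : ℤ)) N))).Finite
  · left
    refine (Set.countable_iUnion fun N : ℕ => (hall N).countable).mono ?_
    intro τ hτ
    obtain ⟨N, z, hz, hw⟩ := nul a Q (fun k => path (c0 k) (c1 k) τ) hτ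
    exact Set.mem_iUnion.2 ⟨N, z, hz, hw⟩
  · right
    push Not at hall
    obtain ⟨N, hN⟩ := hall
    have h1 := (Bad_fin a Q c0 c1
      (Fintype.piFinset (fun _ : Fin n => Finset.Icc (-(N : ℤ)) N))).resolve_left hN
    refine h1.subset ?_
    intro τ hτ hS
    apply hτ
    obtain ⟨z, hz, hw⟩ := hS
    intro t ht
    exact nul_conv a Q (fun k => path (c0 k) (c1 k) τ) _ z hz hw t ht

end Pool.Agent.H46.T6
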