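import Pool.Agent.H46.T6.Defs

/-!
# Coe: coefficients with sum zero and prescribed first moment (row of MP_504089_T6)

STATEMENT.  An element `d` of the real span of the differences `a_i - a_{i'}`, `i, i' ∈ Q`, can be
written `d = ∑_{i ∈ Q} c_i a_i` with `∑_{i ∈ Q} c_i = 0`.

PROOF.  `Submodule.span_induction`: for a generator `a_i - a_{i'}` take `c = Pi.single i 1 - Pi.single i' 1`
(i.e. `fun l => (if l = i then 1 else 0) - (if l = i' then 1 else 0)`; works also for `i = i'`);
zero, sums and multiples are clear.  (Use `classical`.)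
-/

set_option autoImplicit false

namespace Pool.Agent.H46.T6

open Finset

/-- COE -/
theorem coe_span {n : ℕ} {ι : Type} (a : ι → Fin n → ℤ) (Q : Finset ι) (d : Fin n → ℝ)
    (hd : d ∈ Submodule.span ℝ
      {v : Fin n → ℝ | ∃ i ∈ Q, ∃ i' ∈ Q, v = fun j => (a i j : ℝ) - (a i' j : ℝ)}) :
    ∃ c : ι → ℝ, ∑ i ∈ Q, c i = 0 ∧ ∀ j, ∑ i ∈ Q, c i * (a i j : ℝ) = d j := by
  classical
  induction hd using Submodule.span_induction with
  | mem v hv =>
    obtain ⟨i, hi, i', hi', rfl⟩ := hv
    refine ⟨fun l => (if l = i then 1 else 0) - (if l = i' then 1 else 0), ?_, ?_⟩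
    · rw [Finset.sum_sub_distrib]
      simp [hi, hi']
    · intro j
      simp only [sub_mul, Finset.sum_sub_distrib, ite_mul, one_mul, zero_mul]
      simp [hi, hi']
  | zero => exact ⟨fun _ => 0, by simp, by simp⟩
  | add x y _ _ hx hy =>
    obtain ⟨c, hc, hc'⟩ := hx
    obtain ⟨e, he, he'⟩ := hy
    refine ⟨fun l => c l + e l, ?_, ?_⟩
    · rw [Finset.sum_add_distrib, hc, he, add_zero]
    · intro j
      simp only [add_mul, Finset.sum_add_distrib]
      rw [hc' j, he' j]
      rfl
  | smul r x _ hx =>
    obtain ⟨c, hc, hc'⟩ := hx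
    refine ⟨fun l => r * c l, ?_, ?_⟩
    · rw [← Finset.mul_sum, hc, mul_zero]
    · intro j
      simp only [mul_assoc, ← Finset.mul_sum]
      rw [hc' j]
      rfl

/-- Real vectors which are linearly independent over `ℝ` are linearly independent over `ℂ`.
PROOF.  `Fintype.linearIndependent_iff`: from `∑ z_k d_k = 0` take real and imaginary parts of all
coordinates. -/
theorem li_real {n : ℕ} {K : Type} [Fintype K] (d : K → Fin n → ℝ) (h : LinearIndependent ℝ d) :
    LinearIndependent ℂ (fun (k : K) (j : Fin n) => ((d k j : ℝ) : ℂ)) := by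
  rw [Fintype.linearIndependent_iff] at h ⊢
  intro g hg k
  have hj : ∀ j, ∑ k, g k * ((d k j : ℝ) : ℂ) = 0 := by
    intro j
    have := congrFun hg j
    simpa [Finset.sum_apply] using this
  have hre : ∑ k, (g k).re • d k = 0 := by
    funext j
    have := congrArg Complex.re (hj j)
    simpa [Complex.re_sum, Finset.sum_apply] using this
  have him : ∑ k, (g k).im • d k = 0 := by
    funext j
    have := congrArg Complex.im (hj j)
    simpa [Complex.im_sum, Finset.sum_apply] using this
  exact Complex.ext (h _ hre k) (h _ him k)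

end Pool.Agent.H46.T6
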