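import Pool.Agent.H46.T6.Defs

/-!
# Opn: nondegenerate zeros survive small changes of the coefficients (row of MP_504089_T6)

STATEMENT.  `c_{k,i}(s)` differentiable families of coefficients, `t0` a point of the torus with
`val a (Q k) (c_k(s0)) t0 = 0` for all `k ∈ K` and linearly independent logarithmic gradients; then
for all `s` near `s0` there is a common zero in the torus.

PROOF.  Put `t(u) = (t0_i exp(u_i))_i`, so `mon (t(u)) v = mon t0 v * exp(∑ v_i u_i)` (`mon_mul`,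
`mon_exp`).  Let `Φ : (Fin n → ℂ) × ℂ → (K → ℂ) × ℂ`,
`Φ(u,s) = ((∑_{i ∈ Q k} c_{k,i}(s) mon t0 (a i) exp(∑_j a_{ij} u_j))_k, s)`.
It is `ContDiff ℂ 1` (`hc`; finite sums, products, exp), so it has a strict derivative `Φ'` at
`(0, s0)` (`ContDiffAt.hasStrictFDerivAt`).  Claim: `Φ'` is surjective.  `Φ'(u, 0) = (L u, 0)` with
`(L u)_k = ∑_j grd a (Q k) (c_k(s0)) t0 j * u_j`; `L` is surjective because the `grd`'s are linearly
independent (the matrix with rows `grd_k` has independent rows; e.g. `Matrix.mulVec_surjective...` /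
`LinearMap.range_eq_top` via the dual map: if `L` were not surjective there is a nonzero functional
`z` on `K → ℂ` vanishing on the range: `∑_k z_k grd_k = 0`; see `LinearMap.dualMap_injective_iff` /
`Submodule.exists_le_ker_of_lt_top`).  `Φ'(u, σ) = (L u + σ m, σ)` for some `m`, so given `(x, σ)` take
`u` with `L u = x - σ m`.  Hence `HasStrictFDerivAt.map_nhds_eq_of_surj`:
`map Φ (𝓝 (0,s0)) = 𝓝 (Φ(0,s0)) = 𝓝 (0, s0)`.  The set `{y | ∃ u s, Φ(u,s) = y}` belongs to it, so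
it contains all `(0, s)` for `s` near `s0` (`Continuous.tendsto` of `s ↦ (0,s)`): then
`val a (Q k) (c_k(s)) (t(u)) = 0` for all `k`.
-/

set_option autoImplicit false

namespace Pool.Agent.H46.T6

open Finset Filter Topology

/-- the map of the proof -/
noncomputable def Opn_Phi {n : ℕ} {ι K : Type} (a : ι → Fin n → ℤ) (Q : K → Finset ι)
    (c : K → ι → ℂ → ℂ) (t0 : Fin n → ℂ) (x : (Fin n → ℂ) × ℂ) : (K → ℂ) × ℂ :=
  (fun k => ∑ i ∈ Q k, c k i x.2 * mon t0 (a i) * Complex.exp (∑ j, (a i j : ℂ) * x.1 j), x.2)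

theorem Opn_contDiff {n : ℕ} {ι K : Type} [Fintype K] (a : ι → Fin n → ℤ) (Q : K → Finset ι)
    (c : K → ι → ℂ → ℂ) (hc : ∀ k i, ContDiff ℂ 1 (c k i)) (t0 : Fin n → ℂ) :
    ContDiff ℂ 1 (Opn_Phi a Q c t0) := by
  unfold Opn_Phi
  refine ContDiff.prodMk (contDiff_pi.2 fun k => ContDiff.sum fun i _ => ?_) contDiff_snd
  refine ContDiff.mul (ContDiff.mul ((hc k i).comp contDiff_snd) contDiff_const) ?_
  refine ContDiff.cexp (ContDiff.sum fun j _ => ContDiff.mul contDiff_const ?_)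
  exact (contDiff_apply ℂ ℂ j).comp contDiff_fst

theorem Opn_surj_L {n : ℕ} {K : Type} [Fintype K] (g : K → Fin n → ℂ)
    (hi : LinearIndependent ℂ g) (y : K → ℂ) : ∃ u : Fin n → ℂ, ∀ k, ∑ j, g k j * u j = y k := by
  classical
  let M : Matrix K (Fin n) ℂ := Matrix.of g
  have hr : M.rank = Fintype.card K := LinearIndependent.rank_matrix (M := M) hi
  have htop : LinearMap.range M.mulVecLin = ⊤ := by
    apply Submodule.eq_top_of_finrank_eq
    have : Module.finrank ℂ (LinearMap.range M.mulVecLin) = Fintype.card K := hr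
    rw [this, Module.finrank_fintype_fun_eq_card]
  obtain ⟨u, hu⟩ := LinearMap.range_eq_top.1 htop y
  refine ⟨u, fun k => ?_⟩
  have := congrFun hu k
  simpa [M, Matrix.mulVec, dotProduct] using this

/-- OPN -/
theorem opn {n : ℕ} {ι K : Type} [Fintype K] (a : ι → Fin n → ℤ) (Q : K → Finset ι)
    (c : K → ι → ℂ → ℂ) (hc : ∀ k i, ContDiff ℂ 1 (c k i)) (s0 : ℂ) (t0 : Fin n → ℂ)
    (ht0 : ∀ i, t0 i ≠ 0) (h0 : ∀ k, val a (Q k) (fun i => c k i s0) t0 = 0)
    (hi : LinearIndependent ℂ (fun k => grd a (Q k) (fun i => c k i s0) t0)) :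
    ∀ᶠ s in 𝓝 s0, ∃ t : Fin n → ℂ, (∀ i, t i ≠ 0) ∧
      ∀ k, val a (Q k) (fun i => c k i s) t = 0 := by
  have hcd := Opn_contDiff a Q c hc t0
  have hst : HasStrictFDerivAt (Opn_Phi a Q c t0) (fderiv ℂ (Opn_Phi a Q c t0) (0, s0)) (0, s0) :=
    hcd.contDiffAt.hasStrictFDerivAt (by norm_num)
  set D := fderiv ℂ (Opn_Phi a Q c t0) (0, s0) with hD
  have h2 : ∀ x, (D x).2 = x.2 := by
    intro x
    have e1 : HasFDerivAt (fun x => (Opn_Phi a Q c t0 x).2)
        ((ContinuousLinearMap.snd ℂ (K → ℂ) ℂ).comp D) (0, s0) := hst.hasFDerivAt.snd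
    have e2 : HasFDerivAt (fun x : (Fin n → ℂ) × ℂ => x.2)
        (ContinuousLinearMap.snd ℂ (Fin n → ℂ) ℂ) (0, s0) := hasFDerivAt_snd
    have e3 := e1.unique e2
    exact congrArg (fun T : ((Fin n → ℂ) × ℂ) →L[ℂ] ℂ => T x) e3
  have h1 : ∀ u k, (D (u, 0)).1 k =
      ∑ j, grd a (Q k) (fun i => c k i s0) t0 j * u j := by
    intro u k
    have e0 : HasDerivAt (fun τ : ℂ => ((τ • u, s0) : (Fin n → ℂ) × ℂ)) (u, 0) 0 := by
      have q1 : HasDerivAt (fun τ : ℂ => τ • u) ((1 : ℂ) • u) 0 :=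
        (hasDerivAt_id (0 : ℂ)).smul_const u
      rw [one_smul] at q1
      exact q1.prodMk (hasDerivAt_const 0 s0)
    have hst' : HasFDerivAt (Opn_Phi a Q c t0) D (((0 : ℂ) • u, s0) : (Fin n → ℂ) × ℂ) := by
      rw [zero_smul]
      exact hst.hasFDerivAt
    have e1 : HasDerivAt (Opn_Phi a Q c t0 ∘ fun τ : ℂ => ((τ • u, s0) : (Fin n → ℂ) × ℂ))
        (D (u, 0)) 0 :=
      HasFDerivAt.comp_hasDerivAt (x := (0 : ℂ))
        (f := fun τ : ℂ => ((τ • u, s0) : (Fin n → ℂ) × ℂ)) (l := Opn_Phi a Q c t0) hst' e0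
    have e2 : HasDerivAt (fun τ : ℂ => (Opn_Phi a Q c t0 (τ • u, s0)).1) (D (u, 0)).1 0 := by
      exact e1.fst
    have e3 : HasDerivAt (fun τ : ℂ => (Opn_Phi a Q c t0 (τ • u, s0)).1 k) ((D (u, 0)).1 k) 0 :=
      (hasDerivAt_pi.1 e2) k
    have e4 : HasDerivAt (fun τ : ℂ => (Opn_Phi a Q c t0 (τ • u, s0)).1 k)
        (∑ i ∈ Q k, c k i s0 * mon t0 (a i) * (Complex.exp (∑ j, (a i j : ℂ) * ((0 : ℂ) * u j)) *
          (∑ j, (a i j : ℂ) * (1 * u j)))) 0 := by
      change HasDerivAt (fun τ : ℂ => ∑ i ∈ Q k, c k i s0 * mon t0 (a i) *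
        Complex.exp (∑ j, (a i j : ℂ) * (τ * u j))) _ 0
      refine HasDerivAt.fun_sum fun i _ => HasDerivAt.const_mul _ ?_
      refine HasDerivAt.cexp ?_
      refine HasDerivAt.fun_sum fun j _ => HasDerivAt.const_mul _ ?_
      exact (hasDerivAt_id (0 : ℂ)).mul_const (u j)
    rw [e3.unique e4]
    simp only [grd, zero_mul, mul_zero, Finset.sum_const_zero, Complex.exp_zero, one_mul]
    simp only [Finset.mul_sum, Finset.sum_mul]
    rw [Finset.sum_comm]
    refine Finset.sum_congr rfl fun j _ => Finset.sum_congr rfl fun i _ => ?_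
    ring
  have hsurj : D.range = ⊤ := by
    rw [LinearMap.range_eq_top]
    rintro ⟨x, σ⟩
    obtain ⟨u, hu⟩ := Opn_surj_L _ hi (fun k => x k - (D (0, σ)).1 k)
    refine ⟨(u, σ), ?_⟩
    have hsplit : ((u, σ) : (Fin n → ℂ) × ℂ) = (u, 0) + (0, σ) := by simp
    refine Prod.ext ?_ (h2 _)
    funext k
    change (D (u, σ)).1 k = x k
    rw [hsplit, map_add, Prod.fst_add, Pi.add_apply, h1, hu k]
    ring
  have hmap := hst.map_nhds_eq_of_surj hsurj
  have hΦ0 : Opn_Phi a Q c t0 (0, s0) = (0, s0) := by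
    refine Prod.ext ?_ rfl
    funext k
    have := h0 k
    simpa [Opn_Phi, val] using this
  rw [hΦ0] at hmap
  have hmem : Set.range (Opn_Phi a Q c t0) ∈ 𝓝 ((0, s0) : (K → ℂ) × ℂ) := by
    rw [← hmap]
    exact Filter.range_mem_map
  have hcont : Tendsto (fun s : ℂ => ((0, s) : (K → ℂ) × ℂ)) (𝓝 s0) (𝓝 (0, s0)) :=
    (Continuous.prodMk continuous_const continuous_id).tendsto s0
  filter_upwards [hcont hmem] with s hs
  obtain ⟨⟨u, s'⟩, hx⟩ := hs
  have hs' : s' = s := congrArg Prod.snd hx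
  subst hs'
  refine ⟨fun i => t0 i * Complex.exp (u i), fun i => mul_ne_zero (ht0 i) (Complex.exp_ne_zero _),
    fun k => ?_⟩
  have hk := congrFun (congrArg Prod.fst hx) k
  simp only [val]
  rw [← show (∑ i ∈ Q k, c k i s' * mon t0 (a i) * Complex.exp (∑ j, (a i j : ℂ) * u j)) = 0 from hk]
  refine Finset.sum_congr rfl fun i _ => ?_
  rw [mon_mul, mon_exp, mul_assoc]

end Pool.Agent.H46.T6
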