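import Pool.Agent.H46.T6.Ult
import Pool.Agent.H46.T6.Opn

/-!
# Lim: a limit of zeros gives a zero (row of MP_504089_T6)

STATEMENT.  Suppose for a sequence `τ_m → 0` the system with coefficients `(1-τ_m) c0 + τ_m c1` has
a zero `t_m` in the torus.  If the initial systems of `c0` are nondegenerate (hND), then the system
with coefficients `c0` has a zero in the torus.

Here for `ν ∈ ℤ^n` the initial set is `fc ν k = {i ∈ Q k : pr ν (a i) ≤ pr ν (a i') for i' ∈ Q k}`.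

PROOF.  `U = Filter.hyperfilter ℕ` (`≤ atTop` via `hyperfilter_le_cofinite`/`Nat.hyperfilter_le_atTop`).
Let `S` be the (finite) set of all differences `a i - a i'`, `i, i' ∈ Q k`, `k ∈ K`, and let
`tb, ν` be given by `ult`.
(1) For every `k` choose `i0 ∈ Q k` with `pr ν (a i0)` minimal.  Divide
`∑_{i ∈ Q k} path(c0,c1)(τ_m)_i mon (t_m) (a i) = 0` by `mon (t_m) (a i0)` (`mon_sub`):
`∑_{i ∈ Q k} path(c0,c1)(τ_m)_i mon (t_m) (a i - a i0) = 0`.  Here `pr ν (a i - a i0) ≥ 0`, so the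
third alternative of `ult` does not occur; `pr ν (a i - a i0) = 0` iff `i ∈ fc ν k`.  In the limit
along `U` (`path(c0,c1)(τ_m)_i → c0_i`): `∑_{i ∈ fc ν k} c0_i mon tb (a i - a i0) = 0`.  Multiply
by `mon tb (a i0)`: `val a (fc ν k) (c0 k) tb = 0`.
(2) By (hND) the `grd a (fc ν k) (c0 k) tb` are linearly independent.  Let
`ψ_k = min pr ν (a i)` over `Q k` (`= pr ν (a i0)`), `e_{k,i} = (pr ν (a i) - ψ_k).toNat` and
`c_{k,i}(s) = c0_{k,i} s^{e_{k,i}}` for `i ∈ Q k` (use this formula for all `i`), a polynomial in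
`s`.  At `s = 0`: `c_{k,i}(0) = c0_{k,i}` for `i ∈ fc ν k`, `0` for `i ∈ Q k \ fc ν k`.  So
`val a (Q k) (c_k(0)) tb = val a (fc ν k) (c0 k) tb = 0`, the same for `grd`.  `opn` at `s0 = 0`:
for all `s` near `0` there is a zero `t`; take such an `s ≠ 0`
(`(Filter.Eventually.filter_mono nhdsWithin_le_nhds _).exists` on `𝓝[≠] 0`).
(3) Put `t'_j = s^{ν_j} t_j`: `mon t' v = s^{pr ν v} mon t v` (`mon_scale`), so
`val a (Q k) (c0 k) t' = ∑_{i ∈ Q k} c0_i s^{pr ν (a i)} mon t (a i) = s^{ψ_k} ∑ c_{k,i}(s) mon t (a i) = 0`.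
-/

set_option autoImplicit false

namespace Pool.Agent.H46.T6

open Finset Filter Topology

theorem Lim_pr_sub {n : ℕ} (ν v w : Fin n → ℤ) : pr ν (v - w) = pr ν v - pr ν w := by
  simp only [pr, Pi.sub_apply, mul_sub, Finset.sum_sub_distrib]

/-- LIM -/
theorem lim_zero {n : ℕ} {ι K : Type} [Fintype K] (a : ι → Fin n → ℤ) (Q : K → Finset ι)
    (hQ : ∀ k, (Q k).Nonempty) (c0 c1 : K → ι → ℂ)
    (hND : ∀ (ν : Fin n → ℤ) (t : Fin n → ℂ), (∀ i, t i ≠ 0) →
      (∀ k, val a ((Q k).filter (fun i => ∀ i' ∈ Q k, pr ν (a i) ≤ pr ν (a i'))) (c0 k) t = 0) →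
      LinearIndependent ℂ (fun k =>
        grd a ((Q k).filter (fun i => ∀ i' ∈ Q k, pr ν (a i) ≤ pr ν (a i'))) (c0 k) t))
    (τ : ℕ → ℂ) (hτ : Tendsto τ atTop (𝓝 0)) (t : ℕ → Fin n → ℂ) (ht : ∀ m i, t m i ≠ 0)
    (h0 : ∀ m k, val a (Q k) (path (c0 k) (c1 k) (τ m)) (t m) = 0) :
    ∃ t' : Fin n → ℂ, (∀ i, t' i ≠ 0) ∧ ∀ k, val a (Q k) (c0 k) t' = 0 := by
  have hU : ((hyperfilter ℕ : Ultrafilter ℕ) : Filter ℕ) ≤ atTop := Nat.hyperfilter_le_atTop
  obtain ⟨S, hSm⟩ : ∃ S : Finset (Fin n → ℤ), ∀ k, ∀ i ∈ Q k, ∀ i' ∈ Q k, a i - a i' ∈ S := by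
    classical
    refine ⟨Finset.univ.biUnion fun k => ((Q k) ×ˢ (Q k)).image fun p => a p.1 - a p.2, ?_⟩
    intro k i hi i' hi'
    rw [Finset.mem_biUnion]
    exact ⟨k, Finset.mem_univ _, Finset.mem_image.2 ⟨(i, i'), Finset.mem_product.2 ⟨hi, hi'⟩, rfl⟩⟩
  obtain ⟨tb, ν, htb, hS⟩ := ult t ht (hyperfilter ℕ) S
  have hmin : ∀ k, ∃ i0 ∈ Q k, ∀ i' ∈ Q k, pr ν (a i0) ≤ pr ν (a i') := fun k =>
    Finset.exists_min_image (Q k) (fun i => pr ν (a i)) (hQ k)
  choose i0 hi0 hi0m using hmin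
  have hfc : ∀ k i, i ∈ Q k →
      ((∀ i' ∈ Q k, pr ν (a i) ≤ pr ν (a i')) ↔ pr ν (a i) = pr ν (a (i0 k))) := by
    intro k i hi
    constructor
    · intro h
      exact le_antisymm (h _ (hi0 k)) (hi0m k i hi)
    · intro h i' hi'
      rw [h]
      exact hi0m k i' hi'
  have hval : ∀ k (c : ι → ℂ) (s : Fin n → ℂ),
      val a ((Q k).filter (fun i => ∀ i' ∈ Q k, pr ν (a i) ≤ pr ν (a i'))) c s =
      ∑ i ∈ Q k, if pr ν (a i) = pr ν (a (i0 k)) then c i * mon s (a i) else 0 := by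
    intro k c s
    rw [val, Finset.sum_filter]
    refine Finset.sum_congr rfl fun i hi => ?_
    by_cases h : pr ν (a i) = pr ν (a (i0 k))
    · rw [if_pos h, if_pos ((hfc k i hi).2 h)]
    · rw [if_neg h, if_neg (fun h' => h ((hfc k i hi).1 h'))]
  have hgrd : ∀ k (c : ι → ℂ) (s : Fin n → ℂ) (j : Fin n),
      grd a ((Q k).filter (fun i => ∀ i' ∈ Q k, pr ν (a i) ≤ pr ν (a i'))) c s j =
      ∑ i ∈ Q k, if pr ν (a i) = pr ν (a (i0 k)) then c i * mon s (a i) * (a i j : ℂ) else 0 := by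
    intro k c s j
    rw [grd, Finset.sum_filter]
    refine Finset.sum_congr rfl fun i hi => ?_
    by_cases h : pr ν (a i) = pr ν (a (i0 k))
    · rw [if_pos h, if_pos ((hfc k i hi).2 h)]
    · rw [if_neg h, if_neg (fun h' => h ((hfc k i hi).1 h'))]
  -- step 1: the limit point is a zero of the initial system
  have h1 : ∀ k, val a ((Q k).filter (fun i => ∀ i' ∈ Q k, pr ν (a i) ≤ pr ν (a i')))
      (c0 k) tb = 0 := by
    intro k
    have hz : ∀ m, ∑ i ∈ Q k, path (c0 k) (c1 k) (τ m) i * mon (t m) (a i - a (i0 k)) = 0 := by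
      intro m
      have h := h0 m k
      rw [val] at h
      have h2 : ∑ i ∈ Q k, path (c0 k) (c1 k) (τ m) i * mon (t m) (a i - a (i0 k)) =
          (∑ i ∈ Q k, path (c0 k) (c1 k) (τ m) i * mon (t m) (a i)) / mon (t m) (a (i0 k)) := by
        rw [Finset.sum_div]
        exact Finset.sum_congr rfl fun i _ => by rw [mon_sub (ht m), mul_div_assoc]
      rw [h2, h, zero_div]
    have hlim : Tendsto
        (fun m => ∑ i ∈ Q k, path (c0 k) (c1 k) (τ m) i * mon (t m) (a i - a (i0 k)))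
        ((hyperfilter ℕ : Ultrafilter ℕ) : Filter ℕ)
        (𝓝 (∑ i ∈ Q k, c0 k i *
          (if pr ν (a i) = pr ν (a (i0 k)) then mon tb (a i - a (i0 k)) else 0))) := by
      apply tendsto_finsetSum
      intro i hi
      apply Tendsto.mul
      · have h3 : Tendsto (fun m => (1 - τ m) * c0 k i + τ m * c1 k i) atTop
            (𝓝 ((1 - 0) * c0 k i + 0 * c1 k i)) :=
          ((tendsto_const_nhds.sub hτ).mul_const _).add (hτ.mul_const _)
        have h4 : ((1 - 0) * c0 k i + 0 * c1 k i : ℂ) = c0 k i := by ring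
        rw [h4] at h3
        exact h3.mono_left hU
      · have h5 := hS (a i - a (i0 k)) (hSm k i hi (i0 k) (hi0 k))
        rw [Lim_pr_sub] at h5
        have h6 := hi0m k i hi
        rcases h5 with ⟨h7, h8⟩ | ⟨h7, h8⟩ | ⟨h7, h8⟩
        · rw [if_neg (by omega)]
          exact h8
        · rw [if_pos (by omega)]
          exact h8
        · omega
    have hl0 : ∑ i ∈ Q k, c0 k i *
          (if pr ν (a i) = pr ν (a (i0 k)) then mon tb (a i - a (i0 k)) else 0) = 0 := by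
      refine tendsto_nhds_unique hlim ?_
      simp only [hz]
      exact tendsto_const_nhds
    rw [hval]
    have h9 : ∑ i ∈ Q k, (if pr ν (a i) = pr ν (a (i0 k)) then c0 k i * mon tb (a i) else 0) =
        (∑ i ∈ Q k, c0 k i *
          (if pr ν (a i) = pr ν (a (i0 k)) then mon tb (a i - a (i0 k)) else 0)) *
          mon tb (a (i0 k)) := by
      rw [Finset.sum_mul]
      refine Finset.sum_congr rfl fun i _ => ?_
      by_cases h : pr ν (a i) = pr ν (a (i0 k))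
      · rw [if_pos h, if_pos h, mon_sub htb, mul_assoc, div_mul_cancel₀ _ (mon_ne htb _)]
      · rw [if_neg h, if_neg h, mul_zero, zero_mul]
    rw [h9, hl0, zero_mul]
  -- step 2
  have hli := hND ν tb htb h1
  have hc : ∀ k i, ContDiff ℂ 1
      (fun s : ℂ => c0 k i * s ^ (pr ν (a i) - pr ν (a (i0 k))).toNat) := fun k i =>
    contDiff_const.mul (contDiff_id.pow _)
  have hpow : ∀ k, ∀ i ∈ Q k, (0 : ℂ) ^ (pr ν (a i) - pr ν (a (i0 k))).toNat =
      if pr ν (a i) = pr ν (a (i0 k)) then 1 else 0 := by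
    intro k i hi
    have h6 := hi0m k i hi
    by_cases h : pr ν (a i) = pr ν (a (i0 k))
    · rw [if_pos h, h, sub_self, Int.toNat_zero, pow_zero]
    · rw [if_neg h, zero_pow (by omega)]
  have hv0 : ∀ k, val a (Q k)
      (fun i => c0 k i * (0 : ℂ) ^ (pr ν (a i) - pr ν (a (i0 k))).toNat) tb = 0 := by
    intro k
    refine Eq.trans ?_ (h1 k)
    rw [hval, val]
    refine Finset.sum_congr rfl fun i hi => ?_
    rw [hpow k i hi]
    by_cases h : pr ν (a i) = pr ν (a (i0 k))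
    · rw [if_pos h, if_pos h, mul_one]
    · rw [if_neg h, if_neg h, mul_zero, zero_mul]
  have hg0 : (fun k => grd a (Q k)
      (fun i => c0 k i * (0 : ℂ) ^ (pr ν (a i) - pr ν (a (i0 k))).toNat) tb) =
      (fun k => grd a ((Q k).filter (fun i => ∀ i' ∈ Q k, pr ν (a i) ≤ pr ν (a i')))
        (c0 k) tb) := by
    funext k j
    rw [hgrd, grd]
    refine Finset.sum_congr rfl fun i hi => ?_
    rw [hpow k i hi]
    by_cases h : pr ν (a i) = pr ν (a (i0 k))
    · rw [if_pos h, if_pos h, mul_one]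
    · rw [if_neg h, if_neg h, mul_zero, zero_mul, zero_mul]
  have hev := opn a Q (fun k i (s : ℂ) => c0 k i * s ^ (pr ν (a i) - pr ν (a (i0 k))).toNat)
    hc 0 tb htb hv0 (by rw [hg0]; exact hli)
  obtain ⟨s, ⟨t', ht', hz'⟩, hs⟩ :=
    ((hev.filter_mono nhdsWithin_le_nhds).and (self_mem_nhdsWithin (a := (0 : ℂ))
      (s := {0}ᶜ))).exists
  have hs0 : s ≠ 0 := hs
  refine ⟨fun j => s ^ ν j * t' j, fun j => mul_ne_zero (zpow_ne_zero _ hs0) (ht' j), fun k => ?_⟩
  have h10 : val a (Q k) (c0 k) (fun j => s ^ ν j * t' j) =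
      s ^ (pr ν (a (i0 k))) * val a (Q k)
        (fun i => c0 k i * s ^ (pr ν (a i) - pr ν (a (i0 k))).toNat) t' := by
    rw [val, val, Finset.mul_sum]
    refine Finset.sum_congr rfl fun i hi => ?_
    have h6 := hi0m k i hi
    rw [mon_scale hs0, ← zpow_natCast, Int.toNat_of_nonneg (by omega), zpow_sub₀ hs0]
    have h11 : s ^ pr ν (a (i0 k)) ≠ 0 := zpow_ne_zero _ hs0
    field_simp
  rw [h10, hz' k, mul_zero]

end Pool.Agent.H46.T6
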