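import Pool.Agent.H46.T6.Rad
import Pool.Agent.H46.T6.Coe
import Pool.Agent.H46.T6.Bad
import Pool.Agent.H46.T6.Lim

/-!
# Bnf: the Bernstein type lemma

PROOF.  Suppose `|K'| ≤ dim (span of the differences of the Q k, k ∈ K')` for all `K'`.
`rado` over `ℝ` with `W_k` = the span of the differences of the exponents of `Q k` gives
independent `d_k`; `coe_span` gives real `c1_k` with sum zero and first moment `d_k`.
`opn` for the path `(1-τ) c0 + τ c1` at `τ = 1`, `t0 = 1`: zeros for all `τ` near `1`, so `Bad` has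
infinite complement, so `Bad` is countable (`bad`); hence there is a sequence `τ_m → 0`
(`τ_m ≠ 0`) outside `Bad`, and `lim_zero` gives a zero for `c0`.
-/

set_option autoImplicit false

namespace Pool.Agent.H46.T6

open Finset Filter Topology

/-- BNF -/
theorem bnf {n : ℕ} {ι K : Type} [Fintype K] [DecidableEq K] (a : ι → Fin n → ℤ)
    (Q : K → Finset ι) (hQ : ∀ k, (Q k).Nonempty) (c0 : K → ι → ℂ)
    (hND : ∀ (ν : Fin n → ℤ) (t : Fin n → ℂ), (∀ i, t i ≠ 0) →
      (∀ k, val a ((Q k).filter (fun i => ∀ i' ∈ Q k, pr ν (a i) ≤ pr ν (a i'))) (c0 k) t = 0) →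
      LinearIndependent ℂ (fun k =>
        grd a ((Q k).filter (fun i => ∀ i' ∈ Q k, pr ν (a i) ≤ pr ν (a i'))) (c0 k) t))
    (hempty : ∀ t : Fin n → ℂ, (∀ i, t i ≠ 0) → ∃ k, val a (Q k) (c0 k) t ≠ 0) :
    ∃ K' : Finset K, K'.Nonempty ∧ Module.finrank ℝ (Submodule.span ℝ
      {v : Fin n → ℝ | ∃ k ∈ K', ∃ i ∈ Q k, ∃ i' ∈ Q k,
        v = fun j => (a i j : ℝ) - (a i' j : ℝ)}) < K'.card := by
  classical
  by_contra hcon
  push Not at hcon
  -- Rado
  let W : K → Submodule ℝ (Fin n → ℝ) := fun k => Submodule.span ℝ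
    {v : Fin n → ℝ | ∃ i ∈ Q k, ∃ i' ∈ Q k, v = fun j => (a i j : ℝ) - (a i' j : ℝ)}
  obtain ⟨d, hdW, hdi⟩ := rado W (by
    intro K'
    rcases K'.eq_empty_or_nonempty with rfl | hK'
    · simp
    refine (hcon K' hK').trans (Submodule.finrank_mono ?_)
    refine Submodule.span_le.2 ?_
    rintro v ⟨k, hk, i, hi, i', hi', rfl⟩
    refine Submodule.mem_iSup_of_mem k (Submodule.mem_iSup_of_mem hk ?_)
    exact Submodule.subset_span ⟨i, hi, i', hi', rfl⟩)
  choose c1 hc1 hc1' using fun k => coe_span a (Q k) (d k) (hdW k)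
  let c1' : K → ι → ℂ := fun k i => (c1 k i : ℂ)
  -- near τ = 1
  have hmon1 : ∀ v : Fin n → ℤ, mon (fun _ : Fin n => (1 : ℂ)) v = 1 := by
    intro v; simp [mon]
  have hnear : ∀ᶠ τ in 𝓝 (1 : ℂ), ∃ t : Fin n → ℂ, (∀ i, t i ≠ 0) ∧
      ∀ k, val a (Q k) (fun i => path (c0 k) (c1' k) τ i) t = 0 := by
    refine opn a Q (fun k i τ => path (c0 k) (c1' k) τ i) ?_ 1 (fun _ => 1)
      (fun _ => one_ne_zero) ?_ ?_
    · intro k i
      simp only [path]
      fun_prop
    · intro k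
      simp only [val, path, hmon1]
      have h1 : ∑ i ∈ Q k, ((c1 k i : ℝ) : ℂ) = 0 := by
        rw [← Complex.ofReal_sum, hc1 k, Complex.ofReal_zero]
      simpa [c1'] using h1
    · have h1 : (fun k => grd a (Q k) (fun i => path (c0 k) (c1' k) 1 i) (fun _ => 1)) =
          fun (k : K) (j : Fin n) => ((d k j : ℝ) : ℂ) := by
        funext k j
        simp only [grd, path, hmon1]
        rw [← hc1' k j]
        push_cast
        simp [c1']
      rw [h1]
      exact li_real d hdi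
  set Bad : Set ℂ := {τ : ℂ | ∀ t : Fin n → ℂ, (∀ i, t i ≠ 0) →
      ∃ k, val a (Q k) (path (c0 k) (c1' k) τ) t ≠ 0} with hBad
  have hcount : Bad.Countable := by
    rcases bad a Q c0 c1' with h | h
    · exact h
    · exfalso
      have h1 : Badᶜ ∈ 𝓝 (1 : ℂ) := by
        filter_upwards [hnear] with τ hτ hτ'
        obtain ⟨t, ht, htk⟩ := hτ
        obtain ⟨k, hk⟩ := hτ' t ht
        exact hk (htk k)
      exact (infinite_of_mem_nhds 1 h1) h
  -- a sequence tending to zero outside Bad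
  have hseq : ∀ m : ℕ, ∃ τ : ℂ, τ ∉ Bad ∧ ‖τ‖ < 1 / ((m : ℝ) + 1) := by
    intro m
    have hpos : (0 : ℝ) < 1 / ((m : ℝ) + 1) := by positivity
    obtain ⟨τ, hτB, hτ⟩ := (hcount.dense_compl ℂ).exists_mem_open
      (Metric.isOpen_ball (x := (0 : ℂ)) (ε := 1 / ((m : ℝ) + 1))) ⟨0, Metric.mem_ball_self hpos⟩
    exact ⟨τ, hτB, by simpa using hτ⟩
  choose τ hτB hτ using hseq
  have hτ0 : Tendsto τ atTop (𝓝 0) := by
    rw [tendsto_zero_iff_norm_tendsto_zero]
    exact squeeze_zero (fun m => norm_nonneg _) (fun m => (hτ m).le)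
      tendsto_one_div_add_atTop_nhds_zero_nat
  have hex : ∀ m, ∃ t : Fin n → ℂ, (∀ i, t i ≠ 0) ∧
      ∀ k, val a (Q k) (path (c0 k) (c1' k) (τ m)) t = 0 := by
    intro m
    by_contra hno
    push Not at hno
    exact hτB m hno
  choose t ht ht0 using hex
  obtain ⟨t', ht', h0⟩ := lim_zero a Q hQ c0 c1' hND τ hτ0 t ht ht0
  obtain ⟨k, hk⟩ := hempty t' ht'
  exact hk (h0 k)

end Pool.Agent.H46.T6
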