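import Pool.Agent.H46.T6.Scp

/-!
# Lpf: the linear programming lemma (row of MP_504089_T6)

STATEMENT (over arbitrary finite index types).  `A : I × J` matrix of nonnegative rationals, every
column has a nonzero entry.  There are a set `P` and `c : J → ℚ`, `c ≥ 0`, with support `P` and
`∑_j A_ij c_j ≤ 1`, such that for every `η > 0` there are `lam_i > 0` with
`∑_i lam_i A_ij = 1` for `j ∈ P`, `> 1` for `j ∉ P`, and `∑_i lam_i (1 - ∑_j A_ij c_j) < η`.

PROOF.  `α_j = ∑_i A_ij`.  For `N : ℕ` let `ε_N = 1/(N+1)` and let `(c^N, lam^N)` be given by `scp`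
for `b_j = 1 - ε_N α_j`.  Let `P_N = {j : 0 < c^N_j}`, `T_N = {i : ∑_j A_ij c^N_j = 1}`.  By the
pigeonhole principle (`Finite.exists_infinite_fiber` for `N ↦ (P_N, T_N) : Finset J × Finset I`)
there is `(P, T)` with `P_N = P`, `T_N = T` for infinitely many `N`; fix one of them, `N0`, and put
`c = c^{N0}`.  Given `η > 0` choose `N` among them with `ε_N |I| < η` (`Set.Infinite.exists_gt`), and
`lam_i = lam^N_i + ε_N > 0`.  Then `∑_i lam_i A_ij = ∑_i lam^N_i A_ij + ε_N α_j`, which is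
`b_j + ε_N α_j = 1` if `j ∈ P = P_N` and `> b_j + ε_N α_j = 1` if `j ∉ P` (`b_j ≤ ..` and not
equal).  `lam^N_i ≠ 0` implies `i ∈ T_N = T = T_{N0}`, so `∑_j A_ij c_j = 1`; hence
`∑_i lam_i (1 - ∑_j A_ij c_j) = ε_N ∑_i (1 - ∑_j A_ij c_j) ≤ ε_N |I| < η`.
-/

set_option autoImplicit false

namespace Pool.Agent.H46.T6

open Finset

/-- LPF -/
theorem lpf {I J : Type} [Fintype I] [Fintype J] [DecidableEq J] (A : I → J → ℚ)
    (hA : ∀ i j, 0 ≤ A i j) (hcol : ∀ j, ∃ i, A i j ≠ 0) :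
    ∃ (P : Finset J) (c : J → ℚ), (∀ j, 0 ≤ c j) ∧ (∀ j, c j ≠ 0 ↔ j ∈ P) ∧
      (∀ i, ∑ j, A i j * c j ≤ 1) ∧
      ∀ η : ℚ, 0 < η → ∃ lam : I → ℚ, (∀ i, 0 < lam i) ∧
        (∀ j ∈ P, ∑ i, lam i * A i j = 1) ∧ (∀ j, j ∉ P → 1 < ∑ i, lam i * A i j) ∧
        ∑ i, lam i * (1 - ∑ j, A i j * c j) < η := by
  classical
  let ε : ℕ → ℚ := fun N => 1 / ((N : ℚ) + 1)
  have hε : ∀ N, 0 < ε N := fun N => by positivity
  choose c lam hc hl hA1 hb hcs hst using fun N : ℕ =>
    scp A hA hcol (fun j => 1 - ε N * ∑ i, A i j)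
  let pat : ℕ → Finset J × Finset I := fun N =>
    (univ.filter (fun j => 0 < c N j), univ.filter (fun i => ∑ j, A i j * c N j = 1))
  obtain ⟨⟨P, T⟩, hinf⟩ := Finite.exists_infinite_fiber pat
  rw [Set.infinite_coe_iff] at hinf
  obtain ⟨N0, hN0⟩ := hinf.nonempty
  have hP : ∀ N, pat N = (P, T) → ∀ j, 0 < c N j ↔ j ∈ P := by
    intro N hN j
    have h1 : univ.filter (fun j => 0 < c N j) = P := congrArg Prod.fst hN
    rw [← h1]
    simp
  have hT : ∀ N, pat N = (P, T) → ∀ i, ∑ j, A i j * c N j = 1 ↔ i ∈ T := by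
    intro N hN i
    have h1 : univ.filter (fun i => ∑ j, A i j * c N j = 1) = T := congrArg Prod.snd hN
    rw [← h1]
    simp
  have hN0' : pat N0 = (P, T) := hN0
  refine ⟨P, c N0, hc N0, ?_, hA1 N0, ?_⟩
  · intro j
    rw [← hP N0 hN0' j]
    exact ⟨fun h => lt_of_le_of_ne (hc N0 j) (Ne.symm h), fun h => h.ne'⟩
  intro η hη
  obtain ⟨M, hM⟩ := exists_nat_gt ((Fintype.card I : ℚ) / η)
  obtain ⟨N, hNmem, hNM⟩ := hinf.exists_gt M
  have hN : pat N = (P, T) := hNmem
  have hsum : ∀ j, ∑ i, (lam N i + ε N) * A i j = ∑ i, lam N i * A i j + ε N * ∑ i, A i j := by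
    intro j
    rw [Finset.mul_sum, ← Finset.sum_add_distrib]
    exact Finset.sum_congr rfl fun i _ => by ring
  refine ⟨fun i => lam N i + ε N, fun i => by have := hl N i; have := hε N; linarith, ?_, ?_, ?_⟩
  · intro j hj
    have h1 := (hst N j).1 ((hP N hN j).2 hj)
    rw [hsum, ← h1]
    ring
  · intro j hj
    have h1 : (1 - ε N * ∑ i, A i j) ≠ ∑ i, lam N i * A i j := fun h =>
      hj ((hP N hN j).1 ((hst N j).2 h))
    have h2 := lt_of_le_of_ne (hb N j) h1
    rw [hsum]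
    linarith
  · have h1 : ∑ i, (lam N i + ε N) * (1 - ∑ j, A i j * c N0 j) =
        ε N * ∑ i, (1 - ∑ j, A i j * c N0 j) := by
      rw [Finset.mul_sum]
      refine Finset.sum_congr rfl fun i _ => ?_
      have h2 : lam N i * (1 - ∑ j, A i j * c N0 j) = 0 := by
        by_cases h3 : lam N i = 0
        · rw [h3, zero_mul]
        · have h4 : 1 - ∑ j, A i j * c N j = 0 := by
            rcases mul_eq_zero.1 (hcs N i) with h | h
            · exact absurd h h3
            · exact h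
          have h5 : i ∈ T := (hT N hN i).1 (by linarith)
          have h6 := (hT N0 hN0' i).2 h5
          rw [h6, sub_self, mul_zero]
      rw [add_mul, h2, zero_add]
    have h2 : ∑ i, (1 - ∑ j, A i j * c N0 j) ≤ (Fintype.card I : ℚ) := by
      have h3 : ∀ i ∈ (univ : Finset I), (1 - ∑ j, A i j * c N0 j) ≤ (1 : ℚ) := fun i _ => by
        have : 0 ≤ ∑ j, A i j * c N0 j :=
          Finset.sum_nonneg fun j _ => mul_nonneg (hA i j) (hc N0 j)
        linarith
      have h4 := Finset.sum_le_sum h3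
      simpa using h4
    rw [h1]
    have h3 : ε N * ∑ i, (1 - ∑ j, A i j * c N0 j) ≤ ε N * (Fintype.card I : ℚ) :=
      mul_le_mul_of_nonneg_left h2 (hε N).le
    have h4 : (Fintype.card I : ℚ) < η * ((N : ℚ) + 1) := by
      have h5 : (Fintype.card I : ℚ) < η * M := by
        rw [div_lt_iff₀ hη] at hM
        linarith
      have h6 : (M : ℚ) ≤ (N : ℚ) + 1 := by
        have : (M : ℚ) ≤ N := by exact_mod_cast hNM.le
        linarith
      nlinarith
    have h5 : ε N * (Fintype.card I : ℚ) < η := by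
      have h6 : (0 : ℚ) < (N : ℚ) + 1 := by positivity
      simp only [ε]
      rw [div_mul_eq_mul_div, one_mul, div_lt_iff₀ h6]
      exact h4
    linarith

end Pool.Agent.H46.T6
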