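import Mathlib

/-!
# A Bernstein type lemma: definitions

Laurent polynomials in `n` variables are given by exponents `a : ι → ℤ^n`, a finite set `Q` of
indices and a coefficient function `c : ι → ℂ`; `val a Q c t` is the value at the point `t` of the
torus, `grd a Q c t` the logarithmic gradient.
-/

set_option autoImplicit false

namespace Pool.Agent.H46.T6

open Finset

/-- The monomial `t^v`. -/
noncomputable def mon {n : ℕ} (t : Fin n → ℂ) (v : Fin n → ℤ) : ℂ := ∏ i, t i ^ v i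

/-- The pairing of `ℤ^n` with itself. -/
def pr {n : ℕ} (ν v : Fin n → ℤ) : ℤ := ∑ j, ν j * v j

/-- The value at `t` of the Laurent polynomial `∑_{i ∈ Q} c_i t^{a_i}`. -/
noncomputable def val {n : ℕ} {ι : Type} (a : ι → Fin n → ℤ) (Q : Finset ι) (c : ι → ℂ)
    (t : Fin n → ℂ) : ℂ := ∑ i ∈ Q, c i * mon t (a i)

/-- The logarithmic gradient `∑_{i ∈ Q} c_i t^{a_i} a_i`. -/
noncomputable def grd {n : ℕ} {ι : Type} (a : ι → Fin n → ℤ) (Q : Finset ι) (c : ι → ℂ)
    (t : Fin n → ℂ) : Fin n → ℂ := fun j => ∑ i ∈ Q, c i * mon t (a i) * (a i j : ℂ)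

/-- The linear path of coefficients from `c0` to `c1`. -/
noncomputable def path {ι : Type} (c0 c1 : ι → ℂ) (τ : ℂ) : ι → ℂ :=
  fun i => (1 - τ) * c0 i + τ * c1 i

theorem mon_ne {n : ℕ} {t : Fin n → ℂ} (ht : ∀ i, t i ≠ 0) (v : Fin n → ℤ) : mon t v ≠ 0 :=
  Finset.prod_ne_zero_iff.2 fun i _ => zpow_ne_zero _ (ht i)

theorem mon_zero {n : ℕ} (t : Fin n → ℂ) : mon t 0 = 1 := by simp [mon]

theorem mon_add {n : ℕ} {t : Fin n → ℂ} (ht : ∀ i, t i ≠ 0) (v w : Fin n → ℤ) :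
    mon t (v + w) = mon t v * mon t w := by
  simp only [mon, Pi.add_apply, ← Finset.prod_mul_distrib]
  exact Finset.prod_congr rfl fun i _ => zpow_add₀ (ht i) _ _

theorem mon_neg {n : ℕ} (t : Fin n → ℂ) (v : Fin n → ℤ) : mon t (-v) = (mon t v)⁻¹ := by
  simp only [mon, Pi.neg_apply, zpow_neg, Finset.prod_inv_distrib]

theorem mon_sub {n : ℕ} {t : Fin n → ℂ} (ht : ∀ i, t i ≠ 0) (v w : Fin n → ℤ) :
    mon t (v - w) = mon t v / mon t w := by
  rw [sub_eq_add_neg, mon_add ht, mon_neg, div_eq_mul_inv]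

theorem mon_exp {n : ℕ} (u : Fin n → ℂ) (v : Fin n → ℤ) :
    mon (fun i => Complex.exp (u i)) v = Complex.exp (∑ i, (v i : ℂ) * u i) := by
  simp only [mon]
  rw [Complex.exp_sum]
  exact Finset.prod_congr rfl fun i _ => by rw [← Complex.exp_int_mul]

theorem mon_mul {n : ℕ} (t s : Fin n → ℂ) (v : Fin n → ℤ) :
    mon (fun i => t i * s i) v = mon t v * mon s v := by
  simp only [mon, mul_zpow, Finset.prod_mul_distrib]

/-- One parameter subgroups. -/
theorem mon_scale {n : ℕ} {s : ℂ} (hs : s ≠ 0) (ν : Fin n → ℤ) (t : Fin n → ℂ)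
    (v : Fin n → ℤ) : mon (fun i => s ^ ν i * t i) v = s ^ pr ν v * mon t v := by
  simp only [mon, mul_zpow, Finset.prod_mul_distrib]
  congr 1
  have key : ∀ F : Finset (Fin n), ∏ x ∈ F, (s ^ ν x) ^ v x = s ^ ∑ i ∈ F, ν i * v i := by
    intro F
    induction F using Finset.induction_on with
    | empty => simp
    | insert i F hi ih => rw [Finset.prod_insert hi, Finset.sum_insert hi, ih, zpow_add₀ hs, zpow_mul]
  exact key _

theorem norm_mon {n : ℕ} (t : Fin n → ℂ) (v : Fin n → ℤ) : ‖mon t v‖ = ∏ i, ‖t i‖ ^ v i := by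
  simp only [mon, norm_prod, norm_zpow]

end Pool.Agent.H46.T6
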