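import Mathlib

/-!
# Lin: solvability of a linear system along a line of matrices (row of MP_504089_T6)

STATEMENT.  `A, B` complex matrices, `e` a vector.  The set of `τ` such that
`(A + τ B) x = e` is solvable is finite or has finite complement.

PROOF.  Let `M = A.map C + X • B.map C`, a matrix over `ℂ[X]`, and let `M'` be its image over the
field `𝕂 = RatFunc ℂ` (or `FractionRing ℂ[X]`), `e'` the image of `e`.
(a) `M' x = e'` has a solution over `𝕂`: clear denominators, `x = p / q` with `p` a vector of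
polynomials and `0 ≠ q` a polynomial (`IsLocalization.exist_integer_multiples_of_finset` or
`IsLocalization.exist_integer_multiples`), so `M p = q e` over `ℂ[X]` (injectivity of
`ℂ[X] → 𝕂`).  Evaluate at `τ` with `q(τ) ≠ 0`: `(A + τ B) (p(τ)/q(τ)) = e`.  So the complement of
the set is contained in the finite set of roots of `q`.
(b) no solution over `𝕂`: `e'` is not in the range of `M'.mulVecLin`, so there is a functional `y`
vanishing on the range with `y e' ≠ 0` (`Submodule.exists_le_ker_of_notMem`, name may differ), i.e. a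
row vector `y` with `y ᵥ* M' = 0`, `y ⬝ᵥ e' ≠ 0`.  Clear denominators: `y` may be taken with
polynomial entries: `y ᵥ* M = 0`, `q := y ⬝ᵥ e ≠ 0` in `ℂ[X]`.  If `(A + τ B) x = e` is solvable
then `0 = y(τ) ᵥ* (A+τB) ⬝ᵥ x = y(τ) ⬝ᵥ e = q(τ)`: finitely many `τ`.
-/

set_option autoImplicit false

namespace Pool.Agent.H46.T6

open Finset

open Polynomial in
theorem Lin_roots {q : ℂ[X]} (hq : q ≠ 0) {S : Set ℂ} (h : ∀ τ ∈ S, q.eval τ = 0) : S.Finite :=
  (q.roots.toFinset.finite_toSet).subset fun τ hτ => by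
    rw [Finset.mem_coe, Multiset.mem_toFinset, Polynomial.mem_roots hq]
    exact h τ hτ

open Polynomial in
/-- LIN -/
theorem lin_path {I J : Type} [Fintype I] [Fintype J] (A B : Matrix I J ℂ) (e : I → ℂ) :
    {τ : ℂ | ∃ x : J → ℂ, (A + τ • B).mulVec x = e}.Finite ∨
      {τ : ℂ | ¬ ∃ x : J → ℂ, (A + τ • B).mulVec x = e}.Finite := by
  classical
  obtain ⟨M, hM⟩ : ∃ M : I → J → ℂ[X], ∀ i j, M i j = C (A i j) + X * C (B i j) :=
    ⟨_, fun _ _ => rfl⟩
  have hMe : ∀ i j τ, (M i j).eval τ = (A + τ • B) i j := by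
    intro i j τ
    rw [hM]
    simp
    ring
  obtain ⟨φ, hφd⟩ : ∃ φ : ℂ[X] →+* RatFunc ℂ, φ = algebraMap ℂ[X] (RatFunc ℂ) := ⟨_, rfl⟩
  have hφ : Function.Injective φ := by
    rw [hφd]
    exact IsFractionRing.injective ℂ[X] (RatFunc ℂ)
  obtain ⟨M', hM'⟩ : ∃ M' : Matrix I J (RatFunc ℂ), ∀ i j, M' i j = φ (M i j) :=
    ⟨Matrix.of fun i j => φ (M i j), fun _ _ => rfl⟩
  obtain ⟨e', he'⟩ : ∃ e' : I → RatFunc ℂ, ∀ i, e' i = φ (C (e i)) := ⟨_, fun _ => rfl⟩
  have hcd : ∀ {ι : Type} [Finite ι] (f : ι → RatFunc ℂ), ∃ (b : ℂ[X]) (p : ι → ℂ[X]), b ≠ 0 ∧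
      ∀ i, φ (p i) = φ b * f i := by
    intro ι _ f
    obtain ⟨b, hb⟩ := IsLocalization.exist_integer_multiples_of_finite
      (nonZeroDivisors ℂ[X]) f
    choose p hp using hb
    refine ⟨b, p, nonZeroDivisors.coe_ne_zero b, fun i => ?_⟩
    rw [hφd, hp i, Algebra.smul_def]
  by_cases hs : ∃ x : J → RatFunc ℂ, M'.mulVec x = e'
  · right
    obtain ⟨x, hx⟩ := hs
    obtain ⟨b, p, hb, hp⟩ := hcd x
    apply Lin_roots hb
    intro τ hτ
    by_contra hbτ
    apply hτ
    refine ⟨fun j => (p j).eval τ / b.eval τ, ?_⟩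
    funext i
    have h1 : ∑ j, M i j * p j = b * C (e i) := by
      apply hφ
      rw [map_sum, map_mul, ← he', ← congrFun hx i]
      unfold Matrix.mulVec dotProduct
      rw [Finset.mul_sum]
      refine Finset.sum_congr rfl fun j _ => ?_
      show φ (M i j * p j) = φ b * (M' i j * x j)
      rw [map_mul, hp j, hM']
      ring
    have h2 := congrArg (Polynomial.eval τ) h1
    rw [Polynomial.eval_finsetSum, Polynomial.eval_mul, Polynomial.eval_C] at h2
    unfold Matrix.mulVec dotProduct
    have h3 : ∑ j, (A + τ • B) i j * ((p j).eval τ / b.eval τ) =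
        (∑ j, (M i j * p j).eval τ) / b.eval τ := by
      rw [Finset.sum_div]
      refine Finset.sum_congr rfl fun j _ => ?_
      rw [Polynomial.eval_mul, hMe]
      ring
    rw [h3, h2]
    field_simp
  · left
    have hnot : e' ∉ LinearMap.range M'.mulVecLin := by
      rintro ⟨x, hx⟩
      exact hs ⟨x, hx⟩
    obtain ⟨f, hf1, hf2⟩ := Submodule.exists_le_ker_of_notMem hnot
    obtain ⟨y, hy⟩ : ∃ y : I → RatFunc ℂ, ∀ i, y i = f (Pi.single i 1) := ⟨_, fun _ => rfl⟩
    have hfe : ∀ w : I → RatFunc ℂ, f w = ∑ i, w i * y i := by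
      intro w
      have h1 : w = ∑ i, w i • (Pi.single i (1 : RatFunc ℂ) : I → RatFunc ℂ) := by
        funext l
        simp [Finset.sum_apply, Pi.single_apply]
      conv_lhs => rw [h1]
      rw [map_sum]
      refine Finset.sum_congr rfl fun i _ => ?_
      rw [map_smul, smul_eq_mul, hy]
    obtain ⟨b, p, hb, hp⟩ := hcd y
    have hq : ∑ i, p i * C (e i) ≠ 0 := by
      intro h0
      apply hf1
      have h1 : φ b * f e' = 0 := by
        rw [hfe, Finset.mul_sum, ← map_zero φ, ← h0, map_sum]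
        refine Finset.sum_congr rfl fun i _ => ?_
        rw [map_mul, hp, he']
        ring
      rcases mul_eq_zero.1 h1 with h2 | h2
      · exfalso
        apply hb
        apply hφ
        rw [h2, map_zero]
      · exact h2
    have hcol : ∀ j, ∑ i, p i * M i j = 0 := by
      intro j
      apply hφ
      rw [map_zero, map_sum]
      have h1 : f (M'.mulVec (Pi.single j 1)) = 0 := by
        have h2 : M'.mulVec (Pi.single j 1) ∈ LinearMap.range M'.mulVecLin :=
          ⟨Pi.single j 1, rfl⟩
        exact hf2 h2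
      have h3 : ∀ i, M'.mulVec (Pi.single j 1) i = M' i j := by
        intro i
        simp
      rw [hfe] at h1
      have h4 : ∑ i, φ (p i * M i j) = φ b * ∑ i, M'.mulVec (Pi.single j 1) i * y i := by
        rw [Finset.mul_sum]
        refine Finset.sum_congr rfl fun i _ => ?_
        rw [map_mul, hp, h3, hM']
        ring
      rw [h4, h1, mul_zero]
    apply Lin_roots hq
    rintro τ ⟨x, hx⟩
    rw [Polynomial.eval_finsetSum]
    have h1 : ∀ i, (p i * C (e i)).eval τ = ∑ j, (p i * M i j).eval τ * x j := by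
      intro i
      rw [Polynomial.eval_mul, Polynomial.eval_C, ← congrFun hx i]
      unfold Matrix.mulVec dotProduct
      rw [Finset.mul_sum]
      refine Finset.sum_congr rfl fun j _ => ?_
      rw [Polynomial.eval_mul, hMe]
      ring
    rw [Finset.sum_congr rfl fun i _ => h1 i, Finset.sum_comm]
    refine Finset.sum_eq_zero fun j _ => ?_
    rw [← Finset.sum_mul, ← Polynomial.eval_finsetSum, hcol j, Polynomial.eval_zero, zero_mul]

end Pool.Agent.H46.T6
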