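import Mathlib

/-!
# Rad: Rado's theorem for subspaces (row of MP_504089_T6)

STATEMENT.  `W_k`, `k ∈ K`, finitely many subspaces of a finite dimensional space over a field; if
`dim (sum of the W_k, k ∈ K') ≥ |K'|` for all `K'`, then there are linearly independent `d_k ∈ W_k`.

PROOF.  Induction on `∑_k dim W_k` (strong).  Write `W(K') = ⨆ k ∈ K', W k`.
(1) If `dim W_k ≤ 1` for all `k`: `dim W_k ≥ 1` by the hypothesis for `{k}`, so `W_k = span {d_k}`
(`finrank_eq_one_iff'`), `W(univ) = span (range d)` has dimension `≥ |K|`, so `d` is linearly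
independent (`linearIndependent_iff_card_le_finrank_span` or similar).
(2) Otherwise some `W_{k0}` has dimension `≥ 2`.  Choose two different hyperplanes `U1 ≠ U2` of
`W_{k0}`, i.e. `U1 ⊔ U2 = W_{k0}`, both `< W_{k0}` (e.g. from two linearly independent vectors
`x, y ∈ W_{k0}`: a maximal proper subspace `U1` containing `x` and not `y`..., or: take a
complement: `W_{k0} = span{x} ⊔ C` with `x ∉ C`, and `U1 = C`, `U2` = a proper subspace of `W_{k0}`
containing `x` with `C ⊔ U2 = W_{k0}`: `U2 = span {x}` is proper since `dim W_{k0} ≥ 2`, and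
`C ⊔ span{x} = W_{k0}`; hyperplanes are not needed, only `U1, U2 < W_{k0}`, `U1 ⊔ U2 = W_{k0}`).
Claim: the family with `W_{k0}` replaced by `U1` or the family with `W_{k0}` replaced by `U2`
satisfies the hypothesis; then use the induction hypothesis (`∑ dim` drops) and `U_i ≤ W_{k0}`.
Suppose not: there are `K1, K2` (necessarily containing `k0`; put `L_i = K_i \ {k0}`) with
`dim (U_i + W(L_i)) ≤ |L_i|` (`< |K_i| = |L_i| + 1`).  Then by
`Submodule.finrank_sup_add_finrank_inf_eq`:
`|L1| + |L2| ≥ dim (U1 + W(L1)) + dim (U2 + W(L2)) = dim (U1 + U2 + W(L1) + W(L2)) + dim (inf)`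
`≥ dim W({k0} ∪ L1 ∪ L2) + dim W(L1 ∩ L2) ≥ (|L1 ∪ L2| + 1) + |L1 ∩ L2| = |L1| + |L2| + 1`,
a contradiction (`k0 ∉ L1 ∪ L2`; `W(L1 ∩ L2) ≤` both).
-/

set_option autoImplicit false

namespace Pool.Agent.H46.T6

open Finset

theorem Rad_split {F E : Type} [Field F] [AddCommGroup E] [Module F E] [FiniteDimensional F E]
    (W : Submodule F E) (h : 2 ≤ Module.finrank F W) :
    ∃ U1 U2 : Submodule F E, U1 < W ∧ U2 < W ∧ U1 ⊔ U2 = W := by
  have hne : W ≠ ⊥ := by
    rintro rfl
    rw [finrank_bot] at h
    omega
  obtain ⟨x, hxW, hx0⟩ := Submodule.exists_mem_ne_zero_of_ne_bot hne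
  obtain ⟨C, hC⟩ := Submodule.exists_isCompl (Submodule.span F {x})
  have hle : Submodule.span F {x} ≤ W := by
    rw [Submodule.span_singleton_le_iff_mem]
    exact hxW
  have hsup : Submodule.span F {x} ⊔ C ⊓ W = W := by
    rw [← sup_inf_assoc_of_le C hle, hC.sup_eq_top, top_inf_eq]
  refine ⟨Submodule.span F {x}, C ⊓ W, ?_, ?_, hsup⟩
  · refine lt_of_le_of_ne hle fun e => ?_
    have h1 : Module.finrank F (Submodule.span F {x}) = 1 := finrank_span_singleton hx0
    rw [e] at h1
    omega
  · refine lt_of_le_of_ne inf_le_right fun e => ?_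
    have h1 : x ∈ C := by
      have h2 : x ∈ C ⊓ W := by rw [e]; exact hxW
      exact h2.1
    have h3 : x ∈ Submodule.span F {x} ⊓ C := ⟨Submodule.mem_span_singleton_self x, h1⟩
    rw [hC.inf_eq_bot] at h3
    exact hx0 ((Submodule.mem_bot F).1 h3)

theorem Rad_bad {F E : Type} [Field F] [AddCommGroup E] [Module F E] [FiniteDimensional F E]
    {K : Type} [Fintype K] [DecidableEq K] (W : K → Submodule F E)
    (h : ∀ K' : Finset K, K'.card ≤ Module.finrank F (⨆ k ∈ K', W k : Submodule F E)) (k0 : K)
    (U : Submodule F E) {K' : Finset K}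
    (hb : Module.finrank F (⨆ k ∈ K', Function.update W k0 U k : Submodule F E) < K'.card) :
    ∃ L : Finset K, k0 ∉ L ∧
      Module.finrank F (U ⊔ ⨆ k ∈ L, W k : Submodule F E) ≤ L.card := by
  have hk : k0 ∈ K' := by
    by_contra hk
    have h1 : (⨆ k ∈ K', W k : Submodule F E) ≤ ⨆ k ∈ K', Function.update W k0 U k := by
      refine iSup₂_le fun k hkK => ?_
      have hne : k ≠ k0 := fun e => hk (e ▸ hkK)
      refine le_trans (le_of_eq ?_) (le_iSup₂ (f := fun k _ => Function.update W k0 U k) k hkK)
      rw [Function.update_of_ne hne]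
    have h2 := Submodule.finrank_mono h1
    have h3 := h K'
    omega
  refine ⟨K'.erase k0, Finset.notMem_erase k0 K', ?_⟩
  have h1 : (U ⊔ ⨆ k ∈ K'.erase k0, W k : Submodule F E) ≤
      ⨆ k ∈ K', Function.update W k0 U k := by
    refine sup_le ?_ (iSup₂_le fun k hkK => ?_)
    · refine le_trans (le_of_eq ?_) (le_iSup₂ (f := fun k _ => Function.update W k0 U k) k0 hk)
      rw [Function.update_self]
    · have hne : k ≠ k0 := Finset.ne_of_mem_erase hkK
      refine le_trans (le_of_eq ?_) (le_iSup₂ (f := fun k _ => Function.update W k0 U k) k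
        (Finset.mem_of_mem_erase hkK))
      rw [Function.update_of_ne hne]
  have h2 := Submodule.finrank_mono h1
  have h3 := Finset.card_erase_of_mem hk
  omega

theorem Rad_lt {F E : Type} [Field F] [AddCommGroup E] [Module F E] [FiniteDimensional F E]
    {K : Type} [Fintype K] [DecidableEq K] (W : K → Submodule F E) (k0 : K)
    (U : Submodule F E) (hU : U < W k0) :
    ∑ k, Module.finrank F (Function.update W k0 U k) < ∑ k, Module.finrank F (W k) := by
  apply Finset.sum_lt_sum
  · intro k _
    by_cases hk : k = k0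
    · subst hk
      rw [Function.update_self]
      exact Submodule.finrank_mono hU.le
    · rw [Function.update_of_ne hk]
  · refine ⟨k0, Finset.mem_univ _, ?_⟩
    rw [Function.update_self]
    exact Submodule.finrank_lt_finrank_of_lt hU

theorem Rad_main {F E : Type} [Field F] [AddCommGroup E] [Module F E] [FiniteDimensional F E]
    {K : Type} [Fintype K] [DecidableEq K] (N : ℕ) : ∀ (W : K → Submodule F E),
    ∑ k, Module.finrank F (W k) = N →
    (∀ K' : Finset K, K'.card ≤ Module.finrank F (⨆ k ∈ K', W k : Submodule F E)) →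
    ∃ d : K → E, (∀ k, d k ∈ W k) ∧ LinearIndependent F d := by
  induction N using Nat.strong_induction_on with
  | _ N ih =>
    intro W hN h
    by_cases hc : ∀ k, Module.finrank F (W k) ≤ 1
    · have h1 : ∀ k, ∃ v ∈ W k, W k ≤ Submodule.span F {v} := by
        intro k
        obtain ⟨v, hv⟩ := finrank_le_one_iff.1 (hc k)
        refine ⟨v, v.2, fun w hw => ?_⟩
        obtain ⟨c, hcw⟩ := hv ⟨w, hw⟩
        rw [Submodule.mem_span_singleton]
        exact ⟨c, congrArg Subtype.val hcw⟩
      choose d hd1 hd2 using h1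
      refine ⟨d, hd1, ?_⟩
      rw [linearIndependent_iff_card_le_finrank_span]
      have h2 : (⨆ k ∈ (Finset.univ : Finset K), W k : Submodule F E) ≤
          Submodule.span F (Set.range d) := by
        refine iSup₂_le fun k _ => (hd2 k).trans ?_
        exact Submodule.span_mono (Set.singleton_subset_iff.2 ⟨k, rfl⟩)
      have h3 := h Finset.univ
      have h4 := Submodule.finrank_mono h2
      rw [Finset.card_univ] at h3
      exact h3.trans h4
    · push Not at hc
      obtain ⟨k0, hk0⟩ := hc
      obtain ⟨U1, U2, hU1, hU2, hU⟩ := Rad_split (W k0) (by omega)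
      have key : (∀ K' : Finset K, K'.card ≤
          Module.finrank F (⨆ k ∈ K', Function.update W k0 U1 k : Submodule F E)) ∨
          (∀ K' : Finset K, K'.card ≤
          Module.finrank F (⨆ k ∈ K', Function.update W k0 U2 k : Submodule F E)) := by
        by_contra hcon
        push Not at hcon
        obtain ⟨⟨K1, hK1⟩, ⟨K2, hK2⟩⟩ := hcon
        obtain ⟨L1, hn1, hL1⟩ := Rad_bad W h k0 U1 hK1
        obtain ⟨L2, hn2, hL2⟩ := Rad_bad W h k0 U2 hK2
        have e1 := Submodule.finrank_sup_add_finrank_inf_eq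
          (U1 ⊔ ⨆ k ∈ L1, W k : Submodule F E) (U2 ⊔ ⨆ k ∈ L2, W k : Submodule F E)
        have i1 : (⨆ k ∈ insert k0 (L1 ∪ L2), W k : Submodule F E) ≤
            (U1 ⊔ ⨆ k ∈ L1, W k) ⊔ (U2 ⊔ ⨆ k ∈ L2, W k) := by
          refine iSup₂_le fun k hk => ?_
          rcases Finset.mem_insert.1 hk with rfl | hk
          · rw [← hU]
            exact sup_le (le_sup_left.trans le_sup_left) (le_sup_left.trans le_sup_right)
          · rcases Finset.mem_union.1 hk with hk | hk
            · exact (le_iSup₂ (f := fun k _ => W k) k hk).trans (le_sup_right.trans le_sup_left)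
            · exact (le_iSup₂ (f := fun k _ => W k) k hk).trans (le_sup_right.trans le_sup_right)
        have i2 : (⨆ k ∈ L1 ∩ L2, W k : Submodule F E) ≤
            (U1 ⊔ ⨆ k ∈ L1, W k) ⊓ (U2 ⊔ ⨆ k ∈ L2, W k) := by
          refine iSup₂_le fun k hk => ?_
          obtain ⟨hk1, hk2⟩ := Finset.mem_inter.1 hk
          exact le_inf ((le_iSup₂ (f := fun k _ => W k) k hk1).trans le_sup_right)
            ((le_iSup₂ (f := fun k _ => W k) k hk2).trans le_sup_right)
        have j1 := Submodule.finrank_mono i1
        have j2 := Submodule.finrank_mono i2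
        have j3 := h (insert k0 (L1 ∪ L2))
        have j4 := h (L1 ∩ L2)
        have j5 : (insert k0 (L1 ∪ L2)).card = (L1 ∪ L2).card + 1 :=
          Finset.card_insert_of_notMem (by
            rw [Finset.mem_union]
            exact fun hh => hh.elim hn1 hn2)
        have j6 := Finset.card_union_add_card_inter L1 L2
        omega
      rcases key with hk | hk
      · obtain ⟨d, hd1, hd2⟩ := ih _ (by rw [← hN]; exact Rad_lt W k0 U1 hU1) _ rfl hk
        refine ⟨d, fun k => ?_, hd2⟩
        have h1 := hd1 k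
        by_cases hkk : k = k0
        · subst hkk
          rw [Function.update_self] at h1
          exact hU1.le h1
        · rwa [Function.update_of_ne hkk] at h1
      · obtain ⟨d, hd1, hd2⟩ := ih _ (by rw [← hN]; exact Rad_lt W k0 U2 hU2) _ rfl hk
        refine ⟨d, fun k => ?_, hd2⟩
        have h1 := hd1 k
        by_cases hkk : k = k0
        · subst hkk
          rw [Function.update_self] at h1
          exact hU2.le h1
        · rwa [Function.update_of_ne hkk] at h1

/-- RAD -/
theorem rado {F E : Type} [Field F] [AddCommGroup E] [Module F E] [FiniteDimensional F E]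
    {K : Type} [Fintype K] [DecidableEq K] (W : K → Submodule F E)
    (h : ∀ K' : Finset K, K'.card ≤ Module.finrank F (⨆ k ∈ K', W k : Submodule F E)) :
    ∃ d : K → E, (∀ k, d k ∈ W k) ∧ LinearIndependent F d :=
  Rad_main _ W rfl h

end Pool.Agent.H46.T6
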