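import Pool.Agent.H46.T6.Tuk

/-!
# Scp: strict complementarity for a linear program (row of MP_504089_T6)

STATEMENT.  `A : I × J` matrix of nonnegative rationals such that every column has a nonzero
entry, `b : J → ℚ`.  There are `c ≥ 0` on `J` and `lam ≥ 0` on `I` with `∑_j A_ij c_j ≤ 1`,
`b_j ≤ ∑_i lam_i A_ij`, `lam_i (1 - ∑_j A_ij c_j) = 0`, and `c_j > 0` iff `b_j = ∑_i lam_i A_ij`.

PROOF.  Apply `tucker` to the skew matrix on `J ⊕ (I ⊕ Unit)` with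
`M z = (A^T lam - τ b, -A c + τ 1, b·c - ∑ lam)` for `z = (c, lam, τ)`
(blocks: `Matrix.fromBlocks` or `Matrix.of` by cases; skewness by cases).  We get `c, lam, τ ≥ 0`,
(i) `A^T lam ≥ τ b`, (ii) `A c ≤ τ 1`, (iii) `b·c ≥ ∑ lam`, and the sums of corresponding entries
of `z` and `M z` are positive: (iv) `c_j + (A^T lam)_j - τ b_j > 0`, (v) `τ + b·c - ∑ lam > 0`.
If `τ = 0`: `A c ≤ 0`, `A, c ≥ 0` and every column has a nonzero entry, so `c = 0` and
(v) says `-∑ lam > 0`, a contradiction.  So `τ > 0`; divide by `τ`: `c' = c/τ`, `lam' = lam/τ`.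
Now `∑_j b_j c'_j ≤ ∑_j c'_j ∑_i lam'_i A_ij = ∑_i lam'_i ∑_j A_ij c'_j ≤ ∑_i lam'_i ≤ ∑_j b_j c'_j`:
equality everywhere, so `c'_j (∑_i lam'_i A_ij - b_j) = 0` for all `j` and
`lam'_i (1 - ∑_j A_ij c'_j) = 0` for all `i` (`Finset.sum_eq_zero_iff_of_nonneg`).  `c'_j > 0`
implies `b_j = ∑_i lam'_i A_ij`; conversely if `b_j = ∑_i lam'_i A_ij` then (iv) gives `c'_j > 0`.
-/

set_option autoImplicit false

namespace Pool.Agent.H46.T6

open Finset

private def Scp_M {I J : Type} (A : I → J → ℚ) (b : J → ℚ) : J ⊕ I ⊕ Unit → J ⊕ I ⊕ Unit → ℚ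
  | Sum.inl _, Sum.inl _ => 0
  | Sum.inl j, Sum.inr (Sum.inl i) => A i j
  | Sum.inl j, Sum.inr (Sum.inr _) => -b j
  | Sum.inr (Sum.inl i), Sum.inl j => -A i j
  | Sum.inr (Sum.inl _), Sum.inr (Sum.inl _) => 0
  | Sum.inr (Sum.inl _), Sum.inr (Sum.inr _) => 1
  | Sum.inr (Sum.inr _), Sum.inl j => b j
  | Sum.inr (Sum.inr _), Sum.inr (Sum.inl _) => -1
  | Sum.inr (Sum.inr _), Sum.inr (Sum.inr _) => 0

/-- SCP -/
theorem scp {I J : Type} [Fintype I] [Fintype J] (A : I → J → ℚ) (hA : ∀ i j, 0 ≤ A i j)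
    (hcol : ∀ j, ∃ i, A i j ≠ 0) (b : J → ℚ) :
    ∃ (c : J → ℚ) (lam : I → ℚ), (∀ j, 0 ≤ c j) ∧ (∀ i, 0 ≤ lam i) ∧
      (∀ i, ∑ j, A i j * c j ≤ 1) ∧ (∀ j, b j ≤ ∑ i, lam i * A i j) ∧
      (∀ i, lam i * (1 - ∑ j, A i j * c j) = 0) ∧
      ∀ j, 0 < c j ↔ b j = ∑ i, lam i * A i j := by
  classical
  obtain ⟨z, hz0, hz1, hz2⟩ := tucker (Matrix.of (Scp_M A b)) (by
    ext x y
    rw [Matrix.transpose_apply, Matrix.neg_apply, Matrix.of_apply, Matrix.of_apply]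
    rcases x with x | x | x <;> rcases y with y | y | y <;> simp [Scp_M])
  have e1 : ∀ j, (Matrix.of (Scp_M A b)).mulVec z (Sum.inl j) =
      ∑ i, A i j * z (Sum.inr (Sum.inl i)) - b j * z (Sum.inr (Sum.inr ())) := by
    intro j
    simp only [Matrix.mulVec, dotProduct, Matrix.of_apply, Fintype.sum_sum_type, Scp_M, zero_mul,
      sum_const_zero, zero_add, univ_unique, sum_singleton]
    rw [neg_mul, ← sub_eq_add_neg]
  have e2 : ∀ i, (Matrix.of (Scp_M A b)).mulVec z (Sum.inr (Sum.inl i)) =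
      z (Sum.inr (Sum.inr ())) - ∑ j, A i j * z (Sum.inl j) := by
    intro i
    simp only [Matrix.mulVec, dotProduct, Matrix.of_apply, Fintype.sum_sum_type, Scp_M, zero_mul,
      sum_const_zero, zero_add, univ_unique, sum_singleton, one_mul, neg_mul, sum_neg_distrib]
    rw [add_comm, ← sub_eq_add_neg]
  have e3 : (Matrix.of (Scp_M A b)).mulVec z (Sum.inr (Sum.inr ())) =
      ∑ j, b j * z (Sum.inl j) - ∑ i, z (Sum.inr (Sum.inl i)) := by
    simp only [Matrix.mulVec, dotProduct, Matrix.of_apply, Fintype.sum_sum_type, Scp_M, zero_mul,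
      sum_const_zero, add_zero, univ_unique, sum_singleton, neg_mul, one_mul, sum_neg_distrib]
    rw [← sub_eq_add_neg]
  obtain ⟨c0, hc0⟩ : ∃ c0 : J → ℚ, ∀ j, c0 j = z (Sum.inl j) := ⟨_, fun _ => rfl⟩
  obtain ⟨l0, hl0⟩ : ∃ l0 : I → ℚ, ∀ i, l0 i = z (Sum.inr (Sum.inl i)) := ⟨_, fun _ => rfl⟩
  obtain ⟨τ, hτ⟩ : ∃ τ : ℚ, τ = z (Sum.inr (Sum.inr ())) := ⟨_, rfl⟩
  simp only [← hc0, ← hl0, ← hτ] at e1 e2 e3
  have c1 : ∀ j, 0 ≤ c0 j := fun j => by rw [hc0]; exact hz0 _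
  have l1 : ∀ i, 0 ≤ l0 i := fun i => by rw [hl0]; exact hz0 _
  have τ1 : 0 ≤ τ := by rw [hτ]; exact hz0 _
  have i1 : ∀ j, τ * b j ≤ ∑ i, l0 i * A i j := by
    intro j
    have h1 := hz1 (Sum.inl j)
    rw [e1] at h1
    have h2 : ∑ i, A i j * l0 i = ∑ i, l0 i * A i j := sum_congr rfl fun i _ => mul_comm _ _
    linarith
  have i2 : ∀ i, ∑ j, A i j * c0 j ≤ τ := by
    intro i
    have h1 := hz1 (Sum.inr (Sum.inl i))
    rw [e2] at h1
    linarith
  have i3 : ∑ i, l0 i ≤ ∑ j, b j * c0 j := by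
    have h1 := hz1 (Sum.inr (Sum.inr ()))
    rw [e3] at h1
    linarith
  have i4 : ∀ j, 0 < c0 j + (∑ i, l0 i * A i j - τ * b j) := by
    intro j
    have h1 := hz2 (Sum.inl j)
    rw [e1, ← hc0] at h1
    have h2 : ∑ i, A i j * l0 i = ∑ i, l0 i * A i j := sum_congr rfl fun i _ => mul_comm _ _
    linarith
  have i5 : 0 < τ + (∑ j, b j * c0 j - ∑ i, l0 i) := by
    have h1 := hz2 (Sum.inr (Sum.inr ()))
    rw [e3, ← hτ] at h1
    exact h1
  have τ2 : 0 < τ := by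
    rcases τ1.eq_or_lt with h | h
    · exfalso
      have hc : ∀ j, c0 j = 0 := by
        intro j
        obtain ⟨i, hi⟩ := hcol j
        have h1 := i2 i
        rw [← h] at h1
        have h2 : ∑ j, A i j * c0 j = 0 :=
          le_antisymm h1 (sum_nonneg fun j _ => mul_nonneg (hA i j) (c1 j))
        have h3 := (sum_eq_zero_iff_of_nonneg (fun j _ => mul_nonneg (hA i j) (c1 j))).1 h2 j
          (mem_univ j)
        exact (mul_eq_zero.1 h3).resolve_left hi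
      have h4 : ∑ j, b j * c0 j = 0 := sum_eq_zero fun j _ => by rw [hc j, mul_zero]
      have h5 : 0 ≤ ∑ i, l0 i := sum_nonneg fun i _ => l1 i
      rw [h4, ← h] at i5
      linarith
    · exact h
  obtain ⟨c, hc⟩ : ∃ c : J → ℚ, ∀ j, c j = c0 j / τ := ⟨_, fun _ => rfl⟩
  obtain ⟨lam, hl⟩ : ∃ lam : I → ℚ, ∀ i, lam i = l0 i / τ := ⟨_, fun _ => rfl⟩
  have hc' : ∀ j, 0 ≤ c j := fun j => by rw [hc]; exact div_nonneg (c1 j) τ1
  have hl' : ∀ i, 0 ≤ lam i := fun i => by rw [hl]; exact div_nonneg (l1 i) τ1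
  have s1 : ∀ i, ∑ j, A i j * c j = (∑ j, A i j * c0 j) / τ := by
    intro i
    rw [sum_div]
    exact sum_congr rfl fun j _ => by rw [hc, mul_div_assoc]
  have s2 : ∀ j, ∑ i, lam i * A i j = (∑ i, l0 i * A i j) / τ := by
    intro j
    rw [sum_div]
    exact sum_congr rfl fun i _ => by rw [hl, div_mul_eq_mul_div]
  have j1 : ∀ i, ∑ j, A i j * c j ≤ 1 := by
    intro i
    rw [s1, div_le_one τ2]
    exact i2 i
  have j2 : ∀ j, b j ≤ ∑ i, lam i * A i j := by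
    intro j
    rw [s2, le_div_iff₀ τ2, mul_comm]
    exact i1 j
  have j3 : ∑ i, lam i ≤ ∑ j, b j * c j := by
    have h1 : ∑ i, lam i = (∑ i, l0 i) / τ := by
      rw [sum_div]
      exact sum_congr rfl fun i _ => hl i
    have h2 : ∑ j, b j * c j = (∑ j, b j * c0 j) / τ := by
      rw [sum_div]
      exact sum_congr rfl fun j _ => by rw [hc, mul_div_assoc]
    rw [h1, h2]
    exact div_le_div_of_nonneg_right i3 τ1
  have j4 : ∑ j, c j * ∑ i, lam i * A i j = ∑ i, lam i * ∑ j, A i j * c j := by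
    simp only [mul_sum]
    rw [sum_comm]
    exact sum_congr rfl fun i _ => sum_congr rfl fun j _ => by ring
  have n1 : ∀ j ∈ (univ : Finset J), 0 ≤ c j * (∑ i, lam i * A i j - b j) := fun j _ =>
    mul_nonneg (hc' j) (sub_nonneg.2 (j2 j))
  have n2 : ∀ i ∈ (univ : Finset I), 0 ≤ lam i * (1 - ∑ j, A i j * c j) := fun i _ =>
    mul_nonneg (hl' i) (sub_nonneg.2 (j1 i))
  have t1 : ∑ j, c j * (∑ i, lam i * A i j - b j) + ∑ i, lam i * (1 - ∑ j, A i j * c j) ≤ 0 := by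
    have h1 : ∑ j, c j * (∑ i, lam i * A i j - b j) =
        ∑ j, c j * (∑ i, lam i * A i j) - ∑ j, b j * c j := by
      rw [← sum_sub_distrib]
      exact sum_congr rfl fun j _ => by ring
    have h2 : ∑ i, lam i * (1 - ∑ j, A i j * c j) = ∑ i, lam i - ∑ i, lam i * ∑ j, A i j * c j := by
      rw [← sum_sub_distrib]
      exact sum_congr rfl fun i _ => by ring
    rw [h1, h2, j4]
    linarith
  have z1 : ∑ j, c j * (∑ i, lam i * A i j - b j) = 0 :=
    le_antisymm (by linarith [sum_nonneg n2]) (sum_nonneg n1)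
  have z2 : ∑ i, lam i * (1 - ∑ j, A i j * c j) = 0 :=
    le_antisymm (by linarith [sum_nonneg n1]) (sum_nonneg n2)
  have w1 := (sum_eq_zero_iff_of_nonneg n1).1 z1
  have w2 := (sum_eq_zero_iff_of_nonneg n2).1 z2
  refine ⟨c, lam, hc', hl', j1, j2, fun i => w2 i (mem_univ i), fun j => ⟨fun h => ?_, fun h => ?_⟩⟩
  · have h1 := (mul_eq_zero.1 (w1 j (mem_univ j))).resolve_left h.ne'
    linarith
  · have h1 := i4 j
    rw [s2, eq_div_iff τ2.ne'] at h
    have h2 : 0 < c0 j := by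
      rw [← h] at h1
      linarith
    rw [hc]
    exact div_pos h2 τ2

end Pool.Agent.H46.T6
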