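import Pool.Agent.H46.T6.Defs
import Pool.Agent.H56.SMC.FAC

/-!
# Ult: limits of a sequence of points of the torus (row of MP_504089_T6)

STATEMENT.  `t_m` a sequence in `(ℂ^*)^n`, `U` an ultrafilter on `ℕ`, `S` a finite set of exponents.
There are `tb ∈ (ℂ^*)^n` and `ν ∈ ℤ^n` such that for `v ∈ S`: `ν·v > 0` and `t_m^v → 0` along `U`,
or `ν·v = 0` and `t_m^v → tb^v`, or `ν·v < 0` and `t_m^{-v} → 0`.

PROOF.  Let `L_m ∈ ℝ^n`, `L_m = (log ‖t_m,i‖)_i`, `ℓ_m(v) = ∑ v_i L_{m,i} = log ‖mon (t_m) v‖`.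
(1) For every `v` exactly one of the following holds: `ℓ_m(v) → -∞` along `U`
(`Tendsto (ℓ_·(v)) U atBot`), `ℓ_m(v) → +∞`, or there is `C` with `∀ᶠ m in U, |ℓ_m(v)| ≤ C`
(ultrafilter: for every real `C` either eventually `ℓ ≤ C` or eventually `ℓ > C`).  Let `S0` be the
set of the `v ∈ S` of the third kind, `Sp` the set of all `v` such that (`v ∈ S` of the first kind)
or (`-v ∈ S`, `-v` of the second kind); all `v ∈ Sp` are of the first kind.
(2) `ν`: for every `v0 ∈ Sp` there is a linear functional `φ : ℚ^n → ℚ`, `φ = 0` on `S0`, `φ ≥ 0`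
on `Sp`, `φ(v0) > 0`.  By `fac_farkas_vec` (Pool/Agent/H56/SMC/FAC.lean) with the vectors
`v, -v (v ∈ S0)`, `v ∈ Sp` and the vector `-v0`, otherwise
`-v0 = ∑_{v ∈ S0} c_v v + ∑_{v ∈ Sp} c'_v v` with rational `c_v`, `c'_v ≥ 0`; apply `ℓ_m` (linear):
`0 = ℓ_m(v0) + ∑ c_v ℓ_m(v) + ∑ c'_v ℓ_m(v)`; the first term tends to `-∞`, the second is bounded,
the third is eventually `≤ 0`: contradiction (`U` is a proper filter).  The sum of these functionals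
over `v0 ∈ Sp`, multiplied by a common denominator, is given by an integral vector `ν` with
`ν·v = 0` (`v ∈ S0`), `ν·v > 0` (`v ∈ Sp`).
(3) `tb`: let `T : ℝ^n → ℝ^{S0}`, `T(x)_v = v·x`, and let `σ : ℝ^{S0} → ℝ^n` be linear with
`T σ T = T` (e.g. `LinearMap.exists_rightInverse_of_surjective` for `T.rangeRestrict`, extended by
`LinearMap.exists_extend`).  `T(L_m)` is eventually bounded, so `L''_m = σ(T(L_m))` is eventually
in a ball (`LinearMap.continuous_of_finiteDimensional`, bounded on compact sets).  Put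
`t'_m = (t_{m,i} exp(L''_{m,i} - L_{m,i}))_i`; then `‖t'_{m,i}‖ = exp(L''_{m,i}) ∈ [e^{-M}, e^M]`, a
compact set of nonzero complex numbers (annulus), so `t'_m` converges along `U` to some `tb` with
`tb_i ≠ 0` (`IsCompact.ultrafilter_le_nhds` for `U.map t'`).  For `v ∈ S0`:
`mon (t'_m) v = mon (t_m) v * exp(v·(L''_m - L_m)) = mon (t_m) v` since `T(L''_m - L_m) = 0`, so
`mon (t_m) v → mon tb v` (continuity of `mon · v` at `tb`, `tb_i ≠ 0`).
(4) first kind: `‖mon (t_m) v‖ = exp(ℓ_m(v)) → 0`.  Second kind: the same for `-v`.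
-/

set_option autoImplicit false

namespace Pool.Agent.H46.T6

open Finset Filter Topology

/-- the logarithm of the norm of a monomial -/
noncomputable def Ult_l {n : ℕ} (t : ℕ → Fin n → ℂ) (m : ℕ) (v : Fin n → ℤ) : ℝ :=
  ∑ i, (v i : ℝ) * Real.log ‖t m i‖

theorem Ult_norm {n : ℕ} {t : ℕ → Fin n → ℂ} (ht : ∀ m i, t m i ≠ 0) (m : ℕ) (v : Fin n → ℤ) :
    ‖mon (t m) v‖ = Real.exp (Ult_l t m v) := by
  unfold Ult_l
  rw [norm_mon, Real.exp_sum]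
  refine Finset.prod_congr rfl fun i _ => ?_
  rw [mul_comm, ← Real.rpow_def_of_pos (norm_pos_iff.2 (ht m i)), Real.rpow_intCast]

theorem Ult_neg {n : ℕ} (t : ℕ → Fin n → ℂ) (m : ℕ) (v : Fin n → ℤ) : Ult_l t m (-v) = -Ult_l t m v := by
  unfold Ult_l
  rw [← Finset.sum_neg_distrib]
  refine Finset.sum_congr rfl fun i _ => ?_
  rw [Pi.neg_apply]
  push_cast
  ring

theorem Ult_tri (f : ℕ → ℝ) (U : Ultrafilter ℕ) : Tendsto f (U : Filter ℕ) atBot ∨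
    Tendsto f (U : Filter ℕ) atTop ∨ ∃ C, ∀ᶠ m in (U : Filter ℕ), |f m| ≤ C := by
  by_cases h1 : ∀ C, ∀ᶠ m in (U : Filter ℕ), f m ≤ C
  · exact Or.inl (tendsto_atBot.2 h1)
  by_cases h2 : ∀ C, ∀ᶠ m in (U : Filter ℕ), C ≤ f m
  · exact Or.inr (Or.inl (tendsto_atTop.2 h2))
  right; right
  push Not at h1 h2
  obtain ⟨C, hC⟩ := h1
  obtain ⟨D, hD⟩ := h2
  refine ⟨|C| + |D|, ?_⟩
  filter_upwards [hC, hD] with m h3 h4
  rw [abs_le]
  have e1 := neg_abs_le C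
  have e2 := le_abs_self D
  have e3 := abs_nonneg C
  have e4 := abs_nonneg D
  constructor
  · linarith
  · linarith

/-- rational vector -/
def Ult_q {n : ℕ} (v : Fin n → ℤ) : Fin n → ℚ := fun j => (v j : ℚ)

theorem Ult_key {n : ℕ} (t : ℕ → Fin n → ℂ) (U : Ultrafilter ℕ) (T : Finset (Fin n → ℤ))
    (hT : ∀ v ∈ T, ∃ C, ∀ᶠ m in (U : Filter ℕ), Ult_l t m v ≤ C) (v0 : Fin n → ℤ)
    (h0 : Tendsto (fun m => Ult_l t m v0) (U : Filter ℕ) atBot) :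
    ∃ φ : (Fin n → ℚ) →ₗ[ℚ] ℚ, (∀ v ∈ T, 0 ≤ φ (Ult_q v)) ∧ 0 < φ (Ult_q v0) := by
  have hf := Pool.Agent.H56.SMC.fac_farkas_vec (fun k : T => Ult_q k.1) (-(Ult_q v0)) (by
    rintro ⟨c, hc, hv⟩
    have hT' : ∀ k : T, ∃ C, ∀ᶠ m in (U : Filter ℕ), Ult_l t m k.1 ≤ C := fun k => hT k.1 k.2
    choose C hC using hT'
    have h1 : ∀ᶠ m in (U : Filter ℕ), ∀ k : T, Ult_l t m k.1 ≤ C k := eventually_all.2 hC
    have h2 := (tendsto_atBot.1 h0) (-(∑ k, (c k : ℝ) * C k) - 1)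
    obtain ⟨m, h3, h4⟩ := (h1.and h2).exists
    have h5 : -Ult_l t m v0 = ∑ k, (c k : ℝ) * Ult_l t m k.1 := by
      unfold Ult_l
      simp_rw [Finset.mul_sum]
      rw [Finset.sum_comm, ← Finset.sum_neg_distrib]
      refine Finset.sum_congr rfl fun j _ => ?_
      have h6 := congrFun hv j
      simp only [Pi.neg_apply, Finset.sum_apply, Pi.smul_apply, smul_eq_mul, Ult_q] at h6
      have h7 : -(v0 j : ℝ) = ∑ k, (c k : ℝ) * (k.1 j : ℝ) := by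
        have h8 := congrArg (fun x : ℚ => (x : ℝ)) h6
        push_cast at h8
        exact h8
      rw [← neg_mul, h7, Finset.sum_mul]
      exact Finset.sum_congr rfl fun k _ => by ring
    have h6 : ∑ k, (c k : ℝ) * Ult_l t m k.1 ≤ ∑ k, (c k : ℝ) * C k :=
      Finset.sum_le_sum fun k _ => mul_le_mul_of_nonneg_left (h3 k) (by exact_mod_cast hc k)
    linarith)
  obtain ⟨φ, h1, h2⟩ := hf
  refine ⟨φ, fun v hv => h1 ⟨v, hv⟩, ?_⟩
  rw [map_neg] at h2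
  linarith

theorem Ult_nu {n : ℕ} (t : ℕ → Fin n → ℂ) (U : Ultrafilter ℕ) (S : Finset (Fin n → ℤ)) :
    ∃ ν : Fin n → ℤ, ∀ v ∈ S,
      (Tendsto (fun m => Ult_l t m v) (U : Filter ℕ) atBot → 0 < pr ν v) ∧
      (Tendsto (fun m => Ult_l t m v) (U : Filter ℕ) atTop → pr ν v < 0) ∧
      ((∃ C, ∀ᶠ m in (U : Filter ℕ), |Ult_l t m v| ≤ C) → pr ν v = 0) := by
  classical
  obtain ⟨S', hS'⟩ : ∃ S' : Finset (Fin n → ℤ), S' = S ∪ S.image (fun v => -v) := ⟨_, rfl⟩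
  obtain ⟨T, hTdef⟩ : ∃ T : Finset (Fin n → ℤ),
    T = S'.filter (fun v => ∃ C, ∀ᶠ m in (U : Filter ℕ), Ult_l t m v ≤ C) := ⟨_, rfl⟩
  obtain ⟨Sp, hSp⟩ : ∃ Sp : Finset (Fin n → ℤ),
    Sp = S'.filter (fun v => Tendsto (fun m => Ult_l t m v) (U : Filter ℕ) atBot) := ⟨_, rfl⟩
  have hT : ∀ v ∈ T, ∃ C, ∀ᶠ m in (U : Filter ℕ), Ult_l t m v ≤ C := by
    intro v hv
    rw [hTdef, Finset.mem_filter] at hv
    exact hv.2
  have hST : ∀ v ∈ Sp, v ∈ T := by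
    intro v hv
    rw [hSp, Finset.mem_filter] at hv
    rw [hTdef, Finset.mem_filter]
    exact ⟨hv.1, 0, (tendsto_atBot.1 hv.2) 0⟩
  have hex : ∀ v0 : Fin n → ℤ, ∃ φ : (Fin n → ℚ) →ₗ[ℚ] ℚ, v0 ∈ Sp →
      (∀ v ∈ T, 0 ≤ φ (Ult_q v)) ∧ 0 < φ (Ult_q v0) := by
    intro v0
    by_cases h0 : v0 ∈ Sp
    · have h1 := h0
      rw [hSp, Finset.mem_filter] at h1
      obtain ⟨φ, hφ⟩ := Ult_key t U T hT v0 h1.2
      exact ⟨φ, fun _ => hφ⟩
    · exact ⟨0, fun h => absurd h h0⟩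
  choose φ hφ using hex
  obtain ⟨Φ, hΦ⟩ : ∃ Φ : (Fin n → ℚ) →ₗ[ℚ] ℚ, Φ = ∑ v0 ∈ Sp, φ v0 := ⟨_, rfl⟩
  have hΦa : ∀ w, Φ w = ∑ v0 ∈ Sp, φ v0 w := by
    intro w
    rw [hΦ, LinearMap.sum_apply]
  have hT0 : ∀ v ∈ T, 0 ≤ Φ (Ult_q v) := by
    intro v hv
    rw [hΦa]
    exact Finset.sum_nonneg fun v0 h0 => (hφ v0 h0).1 v hv
  have hSp0 : ∀ v ∈ Sp, 0 < Φ (Ult_q v) := by
    intro v hv
    rw [hΦa]
    exact Finset.sum_pos' (fun v0 h0 => (hφ v0 h0).1 v (hST v hv)) ⟨v, hv, (hφ v hv).2⟩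
  obtain ⟨N, hN, ν, hν⟩ := Pool.Agent.H56.SMC.fac_den (fun j => Φ (fun i => if j = i then 1 else 0))
  have hNq : (0 : ℚ) < N := by exact_mod_cast hN
  have hpr : ∀ v, (pr ν v : ℚ) = N * Φ (Ult_q v) := by
    intro v
    rw [LinearMap.pi_apply_eq_sum_univ Φ (Ult_q v), Finset.mul_sum]
    unfold pr
    push_cast
    refine Finset.sum_congr rfl fun j _ => ?_
    rw [← hν j, smul_eq_mul]
    unfold Ult_q
    ring
  have hprn : ∀ v, pr ν (-v) = -pr ν v := by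
    intro v
    unfold pr
    rw [← Finset.sum_neg_distrib]
    exact Finset.sum_congr rfl fun j _ => by rw [Pi.neg_apply]; ring
  have hpos : ∀ v ∈ Sp, 0 < pr ν v := by
    intro v hv
    have h1 : (0 : ℚ) < (pr ν v : ℚ) := by rw [hpr]; exact mul_pos hNq (hSp0 v hv)
    exact_mod_cast h1
  have hnn : ∀ v ∈ T, 0 ≤ pr ν v := by
    intro v hv
    have h1 : (0 : ℚ) ≤ (pr ν v : ℚ) := by rw [hpr]; exact mul_nonneg hNq.le (hT0 v hv)
    exact_mod_cast h1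
  refine ⟨ν, fun v hv => ⟨fun h1 => ?_, fun h1 => ?_, fun h1 => ?_⟩⟩
  · apply hpos
    rw [hSp, Finset.mem_filter, hS', Finset.mem_union]
    exact ⟨Or.inl hv, h1⟩
  · have h2 : -v ∈ Sp := by
      rw [hSp, Finset.mem_filter, hS', Finset.mem_union]
      refine ⟨Or.inr (Finset.mem_image_of_mem _ hv), ?_⟩
      simp_rw [Ult_neg]
      exact tendsto_neg_atTop_atBot.comp h1
    have h3 := hpos _ h2
    rw [hprn] at h3
    linarith
  · obtain ⟨C, hC⟩ := h1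
    have h2 : v ∈ T := by
      rw [hTdef, Finset.mem_filter, hS', Finset.mem_union]
      refine ⟨Or.inl hv, C, ?_⟩
      filter_upwards [hC] with m hm
      exact (abs_le.1 hm).2
    have h3 : -v ∈ T := by
      rw [hTdef, Finset.mem_filter, hS', Finset.mem_union]
      refine ⟨Or.inr (Finset.mem_image_of_mem _ hv), C, ?_⟩
      filter_upwards [hC] with m hm
      rw [Ult_neg]
      linarith [(abs_le.1 hm).1]
    have h4 := hnn _ h2
    have h5 := hnn _ h3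
    rw [hprn] at h5
    linarith

/-- a bounded regulariser of a linear map -/
theorem Ult_sigma {n : ℕ} {κ : Type} [Fintype κ] (T : (Fin n → ℝ) →ₗ[ℝ] (κ → ℝ)) :
    ∃ σ : (κ → ℝ) →ₗ[ℝ] (Fin n → ℝ), ∀ x, T (σ (T x)) = T x := by
  obtain ⟨s0, hs0⟩ := LinearMap.exists_rightInverse_of_surjective T.rangeRestrict
    (LinearMap.range_eq_top.2 T.surjective_rangeRestrict)
  obtain ⟨σ, hσ⟩ := LinearMap.exists_extend s0
  refine ⟨σ, fun x => ?_⟩
  have h1 : σ (T x) = s0 (T.rangeRestrict x) := by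
    have h2 := congrArg (fun f => f (T.rangeRestrict x)) hσ
    exact h2
  have h3 := congrArg (fun f => f (T.rangeRestrict x)) hs0
  have h4 : T.rangeRestrict (s0 (T.rangeRestrict x)) = T.rangeRestrict x := h3
  have h5 := congrArg Subtype.val h4
  rw [h1]
  exact h5

theorem Ult_tb {n : ℕ} (t : ℕ → Fin n → ℂ) (ht : ∀ m i, t m i ≠ 0) (U : Ultrafilter ℕ)
    (S0 : Finset (Fin n → ℤ)) (h : ∀ v ∈ S0, ∃ C, ∀ᶠ m in (U : Filter ℕ), |Ult_l t m v| ≤ C) :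
    ∃ tb : Fin n → ℂ, (∀ i, tb i ≠ 0) ∧
      ∀ v ∈ S0, Tendsto (fun m => mon (t m) v) (U : Filter ℕ) (𝓝 (mon tb v)) := by
  classical
  obtain ⟨T, hT⟩ : ∃ T : (Fin n → ℝ) →ₗ[ℝ] (S0 → ℝ), ∀ x (v : S0), T x v = ∑ i, (v.1 i : ℝ) * x i := by
    refine ⟨LinearMap.pi fun v : S0 => ∑ i, (v.1 i : ℝ) • LinearMap.proj i, fun x v => ?_⟩
    simp
  obtain ⟨σ, hσ⟩ := Ult_sigma T
  obtain ⟨L, hL⟩ : ∃ L : ℕ → Fin n → ℝ, ∀ m i, L m i = Real.log ‖t m i‖ := ⟨fun m i => Real.log ‖t m i‖, fun _ _ => rfl⟩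
  have hTL : ∀ m (v : S0), T (L m) v = Ult_l t m v.1 := by
    intro m v
    rw [hT]
    unfold Ult_l
    exact Finset.sum_congr rfl fun i _ => by rw [hL]
  obtain ⟨K, hK⟩ : ∃ K : ℕ → Fin n → ℝ, ∀ m, K m = σ (T (L m)) := ⟨_, fun _ => rfl⟩
  have hbd : ∃ R : ℝ, ∀ᶠ m in (U : Filter ℕ), ∀ i, |K m i| ≤ R := by
    have h' : ∀ v : S0, ∃ C, ∀ᶠ m in (U : Filter ℕ), |Ult_l t m v.1| ≤ C := fun v => h v.1 v.2
    choose C hC using h'
    obtain ⟨D, hD⟩ : ∃ D : ℝ, D = ∑ v, |C v| := ⟨_, rfl⟩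
    have h1 : ∀ᶠ m in (U : Filter ℕ), ∀ v : S0, |Ult_l t m v.1| ≤ C v := eventually_all.2 hC
    have hcomp : IsCompact (Metric.closedBall (0 : S0 → ℝ) D) := isCompact_closedBall _ _
    have hcont : Continuous σ := σ.continuous_of_finiteDimensional
    obtain ⟨R, hR⟩ := hcomp.exists_bound_of_continuousOn hcont.continuousOn
    refine ⟨R, ?_⟩
    filter_upwards [h1] with m hm
    intro i
    have h2 : T (L m) ∈ Metric.closedBall (0 : S0 → ℝ) D := by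
      rw [mem_closedBall_zero_iff]
      have hD0 : 0 ≤ D := by rw [hD]; exact Finset.sum_nonneg fun v _ => abs_nonneg _
      rw [pi_norm_le_iff_of_nonneg hD0]
      intro v
      rw [hTL, Real.norm_eq_abs]
      refine ((hm v).trans (le_abs_self _)).trans ?_
      rw [hD]
      exact Finset.single_le_sum (f := fun v => |C v|) (fun v _ => abs_nonneg _) (Finset.mem_univ v)
    have h3 := hR _ h2
    have h4 := norm_le_pi_norm (σ (T (L m))) i
    rw [hK, ← Real.norm_eq_abs]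
    exact h4.trans h3
  obtain ⟨R, hR⟩ := hbd
  obtain ⟨t', ht'⟩ : ∃ t' : ℕ → Fin n → ℂ, ∀ m i, t' m i = t m i * Complex.exp ((K m i - L m i : ℝ) : ℂ) :=
    ⟨_, fun _ _ => rfl⟩
  have hn : ∀ m i, ‖t' m i‖ = Real.exp (K m i) := by
    intro m i
    rw [ht', norm_mul, Complex.norm_exp, Complex.ofReal_re]
    have h1 : ‖t m i‖ = Real.exp (L m i) := by
      rw [hL, Real.exp_log (norm_pos_iff.2 (ht m i))]
    rw [h1, ← Real.exp_add]
    congr 1
    ring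
  obtain ⟨Q, hQ⟩ : ∃ Q : Set (Fin n → ℂ), Q = Set.univ.pi fun _ => {z : ℂ | Real.exp (-R) ≤ ‖z‖ ∧ ‖z‖ ≤ Real.exp R} :=
    ⟨_, rfl⟩
  have hQc : IsCompact Q := by
    rw [hQ]
    apply isCompact_univ_pi
    intro i
    have h1 : IsClosed {z : ℂ | Real.exp (-R) ≤ ‖z‖ ∧ ‖z‖ ≤ Real.exp R} :=
      (isClosed_le continuous_const continuous_norm).inter (isClosed_le continuous_norm continuous_const)
    refine Metric.isCompact_of_isClosed_isBounded h1 ?_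
    refine (Metric.isBounded_closedBall (x := (0 : ℂ)) (r := Real.exp R)).subset ?_
    intro z hz
    rw [mem_closedBall_zero_iff]
    exact hz.2
  have hev : ∀ᶠ m in (U : Filter ℕ), t' m ∈ Q := by
    filter_upwards [hR] with m hm
    rw [hQ]
    intro i _
    have h1 := abs_le.1 (hm i)
    constructor
    · rw [hn]; exact Real.exp_le_exp.2 h1.1
    · rw [hn]; exact Real.exp_le_exp.2 h1.2
  obtain ⟨tb, htb, hlim⟩ := hQc.ultrafilter_le_nhds (U.map t') (by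
    rw [le_principal_iff]
    exact hev)
  have hlim' : Tendsto t' (U : Filter ℕ) (𝓝 tb) := hlim
  have htb0 : ∀ i, tb i ≠ 0 := by
    intro i h0
    rw [hQ] at htb
    have h1 := (htb i (Set.mem_univ i)).1
    rw [h0, norm_zero] at h1
    exact absurd h1 (not_le.2 (Real.exp_pos _))
  refine ⟨tb, htb0, fun v hv => ?_⟩
  have h1 : ∀ m, mon (t m) v = mon (t' m) v := by
    intro m
    have h2 : t' m = fun i => t m i * Complex.exp ((K m i - L m i : ℝ) : ℂ) := funext fun i => ht' m i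
    rw [h2, mon_mul, mon_exp]
    have h3 : ∑ i, (v i : ℝ) * (K m i - L m i) = 0 := by
      have h4 := congrFun (hσ (L m)) ⟨v, hv⟩
      rw [hT, hT, ← hK] at h4
      simp_rw [mul_sub]
      rw [Finset.sum_sub_distrib]
      exact sub_eq_zero.2 h4
    have h5 : ∑ i, (v i : ℂ) * ((K m i - L m i : ℝ) : ℂ) = 0 := by
      have h6 := congrArg (fun x : ℝ => (x : ℂ)) h3
      push_cast at h6 ⊢
      exact h6
    rw [h5, Complex.exp_zero, mul_one]
  simp_rw [h1]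
  have h2 : ContinuousAt (fun s : Fin n → ℂ => mon s v) tb := by
    unfold mon
    exact tendsto_finsetProd _ fun i _ => ((continuousAt_apply i tb).zpow₀ _ (Or.inl (htb0 i)))
  exact h2.tendsto.comp hlim'

/-- ULT -/
theorem ult {n : ℕ} (t : ℕ → Fin n → ℂ) (ht : ∀ m i, t m i ≠ 0) (U : Ultrafilter ℕ)
    (S : Finset (Fin n → ℤ)) :
    ∃ (tb : Fin n → ℂ) (ν : Fin n → ℤ), (∀ i, tb i ≠ 0) ∧ ∀ v ∈ S,
      (0 < pr ν v ∧ Tendsto (fun m => mon (t m) v) (U : Filter ℕ) (𝓝 0)) ∨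
      (pr ν v = 0 ∧ Tendsto (fun m => mon (t m) v) (U : Filter ℕ) (𝓝 (mon tb v))) ∨
      (pr ν v < 0 ∧ Tendsto (fun m => mon (t m) (-v)) (U : Filter ℕ) (𝓝 0)) := by
  classical
  obtain ⟨ν, hν⟩ := Ult_nu t U S
  obtain ⟨tb, htb0, htb⟩ := Ult_tb t ht U
    (S.filter fun v => ∃ C, ∀ᶠ m in (U : Filter ℕ), |Ult_l t m v| ≤ C)
    (fun v hv => (Finset.mem_filter.1 hv).2)
  refine ⟨tb, ν, htb0, fun v hv => ?_⟩
  obtain ⟨h1, h2, h3⟩ := hν v hv
  have hz : ∀ w : Fin n → ℤ, Tendsto (fun m => Ult_l t m w) (U : Filter ℕ) atBot →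
      Tendsto (fun m => mon (t m) w) (U : Filter ℕ) (𝓝 0) := by
    intro w hw
    rw [tendsto_zero_iff_norm_tendsto_zero]
    simp_rw [Ult_norm ht]
    exact Real.tendsto_exp_atBot.comp hw
  rcases Ult_tri (fun m => Ult_l t m v) U with h | h | h
  · exact Or.inl ⟨h1 h, hz v h⟩
  · refine Or.inr (Or.inr ⟨h2 h, hz (-v) ?_⟩)
    simp_rw [Ult_neg]
    exact tendsto_neg_atTop_atBot.comp h
  · exact Or.inr (Or.inl ⟨h3 h, htb v (Finset.mem_filter.2 ⟨hv, h⟩)⟩)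

end Pool.Agent.H46.T6
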